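import Pool.Agent.X141.RD.Free

set_option autoImplicit false
set_option linter.unusedSectionVars false

namespace X141.RD

open Monoid Finset

variable {M : Type} [Group M] [DecidableEq M]

/-- a size function on `M` with balls of polynomial size -/
structure Size (M : Type) [Group M] where
  /-- the size -/
  sz : M → ℕ
  one : sz 1 = 0
  mul : ∀ a b, sz (a * b) ≤ sz a + sz b
  pos : ∀ a, a ≠ 1 → 1 ≤ sz a
  /-- balls -/
  ball : ℕ → Finset M
  mem : ∀ a n, sz a ≤ n → a ∈ ball n
  card : ∀ n, (ball n).card ≤ (2 * n + 1) ^ 6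

variable (S : Size M)

/-- size of an element of the free product -/
def NN (γ : FP M) : ℕ := ((syl γ).map (fun a => S.sz a.2)).sum

lemma NN_dec {i : Bool} {m : M} {t : FP M} (ht : hd t ≠ some i) :
    NN S (inc i m * t) = S.sz m + NN S t := by
  by_cases hm : m = 1
  · rw [hm, map_one, one_mul, S.one, zero_add]
  · unfold NN
    rw [syl_mul ht hm]
    simp

lemma NN_one : NN S (1 : FP M) = 0 := by simp [NN]

lemma NN_inc_mul (i : Bool) (s : M) (hs : S.sz s ≤ 1) (γ : FP M) :
    NN S (inc i s * γ) ≤ NN S γ + 1 := by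
  obtain ⟨h, t, e, ht⟩ := exists_dec i γ
  rw [e, ← mul_assoc, ← map_mul, NN_dec S ht, NN_dec S ht]
  have := S.mul s h
  omega

lemma length_le (γ : FP M) : (syl γ).length ≤ NN S γ := by
  unfold NN
  have h := (red_syl γ).1
  generalize syl γ = l at h
  induction l with
  | nil => simp
  | cons a l ih =>
    have h1 := ih (fun b hb => h b (List.mem_cons_of_mem _ hb))
    have h2 := S.pos a.2 (h a List.mem_cons_self)
    simp only [List.length_cons, List.map_cons, List.sum_cons]
    omega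

lemma sz_le_of_mem {γ : FP M} {a : Σ _ : Bool, M} (ha : a ∈ syl γ) : S.sz a.2 ≤ NN S γ := by
  unfold NN
  exact List.single_le_sum (by simp) _ (List.mem_map_of_mem ha)

/-- the list-level centroid -/
def kap : List (Σ _ : Bool, M) → List (Σ _ : Bool, M) → List (Σ _ : Bool, M)
  | [], _ => []
  | _ :: _, [] => []
  | a :: l, b :: l' => if a = b then a :: kap l l' else if a.1 = b.1 then [a] else []

/-- the centroid -/
def cen (x z : FP M) : FP M := pr (kap (syl x) (syl z))

lemma kap_spec (l l' : List (Σ _ : Bool, M)) : ∃ w, l = kap l l' ++ w := by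
  induction l generalizing l' with
  | nil => exact ⟨[], by simp [kap]⟩
  | cons a l ih =>
    cases l' with
    | nil => exact ⟨a :: l, by simp [kap]⟩
    | cons b l' =>
      by_cases h : a = b
      · obtain ⟨w, hw⟩ := ih l'
        refine ⟨w, ?_⟩
        simp only [kap, h, if_true]
        rw [List.cons_append, ← hw]
      · by_cases h2 : a.1 = b.1
        · exact ⟨l, by simp [kap, h, h2]⟩
        · exact ⟨a :: l, by simp [kap, h, h2]⟩

/-- the centroid in terms of the second list -/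
lemma kap_right (l l' : List (Σ _ : Bool, M)) : ∃ (j : ℕ) (i : Bool) (m : M), j ≤ l.length ∧
    pr (kap l l') = pr (l'.take j) * inc i m ∧ (m = 1 ∨ ∃ a ∈ l, a.2 = m) := by
  induction l generalizing l' with
  | nil => exact ⟨0, false, 1, by simp, by simp [kap], Or.inl rfl⟩
  | cons a l ih =>
    cases l' with
    | nil => exact ⟨0, false, 1, by simp, by simp [kap], Or.inl rfl⟩
    | cons b l' =>
      by_cases h : a = b
      · obtain ⟨j, i, m, hj, he, hm⟩ := ih l'
        refine ⟨j + 1, i, m, by simpa using hj, ?_, ?_⟩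
        · simp only [kap, h, if_true, pr_cons, List.take_succ_cons]
          rw [he, mul_assoc]
        · rcases hm with hm | ⟨c, hc, hcm⟩
          · exact Or.inl hm
          · exact Or.inr ⟨c, List.mem_cons_of_mem _ hc, hcm⟩
      · by_cases h2 : a.1 = b.1
        · refine ⟨0, a.1, a.2, by simp, by simp [kap, h, h2], Or.inr ⟨a, List.mem_cons_self, rfl⟩⟩
        · exact ⟨0, false, 1, by simp, by simp [kap, h, h2], Or.inl rfl⟩

/-- what remains on the left and the right of the centroid do not interact -/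
lemma kap_rest {l l' : List (Σ _ : Bool, M)} (hl : Red l) (hl' : Red l') :
    ∃ (w : List (Σ _ : Bool, M)) (r : FP M), l = kap l l' ++ w ∧ pr l' = pr (kap l l') * r ∧
      (w = [] ∨ hd r ≠ w.head?.map Sigma.fst ∨ hd r = none) := by
  induction l generalizing l' with
  | nil => exact ⟨[], pr l', by simp [kap], by simp [kap], Or.inl rfl⟩
  | cons a l ih =>
    cases l' with
    | nil => exact ⟨a :: l, 1, by simp [kap], by simp [kap], Or.inr (Or.inr hd_one)⟩
    | cons b l' =>
      by_cases h : a = b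
      · obtain ⟨w, r, h1, h2, h3⟩ := ih hl.tail hl'.tail
        refine ⟨w, r, ?_, ?_, h3⟩
        · simp only [kap, h, if_true]
          rw [List.cons_append, ← h1]
        · simp only [kap, h, if_true, pr_cons]
          rw [h2, mul_assoc]
      · by_cases h2 : a.1 = b.1
        · refine ⟨l, (inc a.1 a.2)⁻¹ * pr (b :: l'), by simp [kap, h, h2], by simp [kap, h, h2], ?_⟩
          have hne : a.2⁻¹ * b.2 ≠ 1 := by
            intro h3
            apply h
            rw [inv_mul_eq_one] at h3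
            cases a; cases b
            simp_all
          have h4 : (inc a.1 a.2)⁻¹ * pr (b :: l') = inc a.1 (a.2⁻¹ * b.2) * pr l' := by
            rw [pr_cons, ← mul_assoc, ← h2, ← map_inv, ← map_mul]
          have h5 : hd (pr l') ≠ some a.1 := by
            rw [hd_eq, syl_pr hl'.tail, h2]
            exact hl'.head_ne
          rw [h4, hd_mul h5 hne]
          by_cases hw : l = []
          · exact Or.inl hw
          · right; left
            exact fun h6 => hl.head_ne h6.symm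
        · refine ⟨a :: l, pr (b :: l'), by simp [kap, h, h2], by simp [kap, h, h2], ?_⟩
          right; left
          rw [hd_eq, syl_pr hl']
          simp only [List.head?_cons, Option.map_some]
          intro h3
          exact h2 (Option.some.inj h3).symm

/-- multiplying by an inverse word which does not interact -/
lemma syl_inv_mul {w : List (Σ _ : Bool, M)} (hw : Red w) (r : FP M)
    (h : hd r ≠ w.head?.map Sigma.fst ∨ hd r = none) :
    ∃ u, syl ((pr w)⁻¹ * r) = u ++ syl r ∧ u.length = w.length ∧ pr u = (pr w)⁻¹ := by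
  induction w generalizing r with
  | nil => exact ⟨[], by simp, rfl, by simp⟩
  | cons a w ih =>
    have hr : hd r ≠ some a.1 := by
      rcases h with h | h
      · simpa using h
      · rw [h]; simp
    have ha : a.2⁻¹ ≠ 1 := by
      intro h1
      exact hw.1 a List.mem_cons_self (inv_eq_one.1 h1)
    have e1 : (pr (a :: w))⁻¹ * r = (pr w)⁻¹ * (inc a.1 a.2⁻¹ * r) := by
      rw [pr_cons, mul_inv_rev, mul_assoc, map_inv]
    obtain ⟨u, h1, h2, h3⟩ := ih hw.tail (inc a.1 a.2⁻¹ * r) (by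
      left
      rw [hd_mul hr ha]
      exact fun h6 => hw.head_ne h6.symm)
    refine ⟨u ++ [⟨a.1, a.2⁻¹⟩], ?_, by simp [h2], ?_⟩
    · rw [e1, h1, syl_mul hr ha]
      simp
    · rw [pr_append, h3]
      simp

/-- prefixes of `y` of length at most `n` -/
def pre (n : ℕ) (y : FP M) : Finset (FP M) :=
  (range (n + 1)).image (fun k => pr ((syl y).take k))

lemma card_pre (n : ℕ) (y : FP M) : (pre n y).card ≤ n + 1 := by
  unfold pre
  exact Finset.card_image_le.trans (by simp)

/-- property (b) -/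
lemma cen_mem_pre (x z : FP M) (n : ℕ) (hn : NN S x ≤ n) : cen x z ∈ pre n x := by
  obtain ⟨w, hw⟩ := kap_spec (syl x) (syl z)
  unfold pre cen
  rw [Finset.mem_image]
  refine ⟨(kap (syl x) (syl z)).length, ?_, ?_⟩
  · rw [Finset.mem_range]
    have h1 := length_le S x
    rw [hw, List.length_append] at h1
    omega
  · generalize kap (syl x) (syl z) = c at hw ⊢
    rw [hw, List.take_left]

/-- property (c) -/
lemma inv_cen_mem (x y : FP M) (n : ℕ) (hn : NN S x ≤ n) : x⁻¹ * cen x (x * y) ∈ pre n y := by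
  obtain ⟨w, r, h1, h2, h3⟩ := kap_rest (red_syl x) (red_syl (x * y))
  set c := kap (syl x) (syl (x * y)) with hc
  have hx : x = pr c * pr w := by rw [← pr_append, ← h1, pr_syl]
  have hxy : x * y = pr c * r := by rw [← h2, pr_syl]
  have hy : y = (pr w)⁻¹ * r := by
    have h4 : y = x⁻¹ * (x * y) := by group
    rw [h4, hxy, hx]
    group
  have hred : Red w := by
    have h5 := red_syl x
    rw [h1] at h5
    exact ⟨fun a ha => h5.1 a (List.mem_append_right _ ha), (List.isChain_append.1 h5.2).2.1⟩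
  have hcond : w = [] ∨ (hd r ≠ w.head?.map Sigma.fst ∨ hd r = none) := h3
  have hxc : x⁻¹ * cen x (x * y) = (pr w)⁻¹ := by
    unfold cen
    rw [← hc]
    conv_lhs => rw [hx]
    group
  rw [hxc]
  have hlen : w.length ≤ n := by
    have h6 := length_le S x
    rw [h1, List.length_append] at h6
    omega
  unfold pre
  rw [Finset.mem_image]
  rcases hcond with hw0 | hw0
  · refine ⟨0, by simp, ?_⟩
    rw [hw0]; simp
  · obtain ⟨u, h7, h8, h9⟩ := syl_inv_mul hred r hw0
    refine ⟨w.length, by rw [Finset.mem_range]; omega, ?_⟩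
    rw [hy, h7, ← h8, List.take_left, h9]

/-- the possible centroids for fixed `z` -/
def cset (n : ℕ) (z : FP M) : Finset (FP M) :=
  ((range (n + 1)) ×ˢ ((univ : Finset Bool) ×ˢ (S.ball n))).image
    (fun a => pr ((syl z).take a.1) * inc a.2.1 a.2.2)

lemma card_cset (n : ℕ) (z : FP M) : (cset S n z).card ≤ (n + 1) * (2 * (2 * n + 1) ^ 6) := by
  unfold cset
  refine Finset.card_image_le.trans ?_
  rw [Finset.card_product, Finset.card_product]
  simp only [Finset.card_range, Finset.card_univ, Fintype.card_bool]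
  exact Nat.mul_le_mul le_rfl (Nat.mul_le_mul le_rfl (S.card n))

/-- property (a) -/
lemma cen_mem_cset (x z : FP M) (n : ℕ) (hn : NN S x ≤ n) : cen x z ∈ cset S n z := by
  obtain ⟨j, i, m, hj, he, hm⟩ := kap_right (syl x) (syl z)
  unfold cset
  rw [Finset.mem_image]
  refine ⟨(j, i, m), ?_, he.symm⟩
  rw [Finset.mem_product, Finset.mem_product]
  refine ⟨?_, Finset.mem_univ _, ?_⟩
  · rw [Finset.mem_range]
    have := length_le S x
    change j < n + 1
    omega
  · apply S.mem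
    rcases hm with hm | ⟨a, ha, ham⟩
    · change S.sz m ≤ n
      rw [hm, S.one]; omega
    · change S.sz m ≤ n
      rw [← ham]
      exact (sz_le_of_mem S ha).trans hn

/-- for a fixed centroid -/
lemma key_c (n : ℕ) (c : FP M) (F T Y : Finset (FP M)) (hF : ∀ x ∈ F, NN S x ≤ n)
    (G : FP M → ℝ) (hG : ∀ y, 0 ≤ G y) (hY : ∀ y, y ∉ Y → G y = 0) :
    ∑ z ∈ T, ∑ x ∈ F, (if cen x z = c then G (x⁻¹ * z) else 0) ≤ (n + 1) * ∑ y ∈ Y, G y := by
  classical
  rw [← Finset.sum_product', ← Finset.sum_filter]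
  set A := (T ×ˢ F).filter (fun p => cen p.2 p.1 = c) with hA
  have h1 : ∑ p ∈ A, G (p.2⁻¹ * p.1) = ∑ p ∈ A.filter (fun p => p.2⁻¹ * p.1 ∈ Y),
      G (p.2⁻¹ * p.1) := by
    refine (Finset.sum_filter_of_ne ?_).symm
    intro p _ hp
    by_contra h
    exact hp (hY _ h)
  rw [h1]
  set B := A.filter (fun p => p.2⁻¹ * p.1 ∈ Y) with hB
  let φ : FP M × FP M → (Σ _ : FP M, FP M) := fun p => ⟨p.2⁻¹ * p.1, p.2⁻¹ * c⟩
  have hinj : Set.InjOn φ B := by
    intro p _ q _ h
    have h2 := Sigma.mk.inj_iff.1 h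
    have h3 : p.2⁻¹ * p.1 = q.2⁻¹ * q.1 := h2.1
    have h4 : p.2⁻¹ * c = q.2⁻¹ * c := eq_of_heq h2.2
    have h5 : p.2 = q.2 := inv_injective (mul_right_cancel h4)
    rw [h5] at h3
    exact Prod.ext (mul_left_cancel h3) h5
  have h2 : ∑ p ∈ B, G (p.2⁻¹ * p.1) = ∑ t ∈ B.image φ, G t.1 := by
    rw [Finset.sum_image hinj]
  rw [h2]
  have h3 : B.image φ ⊆ Y.sigma (fun y => pre n y) := by
    intro t ht
    rw [Finset.mem_image] at ht
    obtain ⟨p, hp, rfl⟩ := ht
    rw [hB, Finset.mem_filter, hA, Finset.mem_filter, Finset.mem_product] at hp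
    rw [Finset.mem_sigma]
    refine ⟨hp.2, ?_⟩
    have h4 := inv_cen_mem S p.2 (p.2⁻¹ * p.1) n (hF _ hp.1.1.2)
    have h5 : p.2 * (p.2⁻¹ * p.1) = p.1 := by group
    rw [h5, hp.1.2] at h4
    exact h4
  refine (Finset.sum_le_sum_of_subset_of_nonneg h3 (fun t _ _ => hG _)).trans ?_
  rw [Finset.sum_sigma, Finset.mul_sum]
  apply Finset.sum_le_sum
  intro y _
  simp only [Finset.sum_const, nsmul_eq_mul]
  apply mul_le_mul_of_nonneg_right _ (hG y)
  have := card_pre n y
  exact_mod_cast this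

/-- the inequality for functions supported in a ball -/
lemma ball_ineq (n : ℕ) (F T Y : Finset (FP M)) (hF : ∀ x ∈ F, NN S x ≤ n)
    (a b : FP M → ℝ) (hY : ∀ y, y ∉ Y → b y = 0) :
    ∑ z ∈ T, (∑ x ∈ F, a x * b (x⁻¹ * z)) ^ 2 ≤
      ((n + 1) * (2 * (2 * n + 1) ^ 6) * ((n + 1) * (n + 1)) : ℝ) *
        (∑ x ∈ F, a x ^ 2) * ∑ y ∈ Y, b y ^ 2 := by
  classical
  set C := F.biUnion (fun x => pre n x) with hC
  set A' : FP M → ℝ := fun c => ∑ x ∈ F, if c ∈ pre n x then a x ^ 2 else 0 with hA'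
  set B : FP M → FP M → ℝ := fun c z => ∑ x ∈ F, if cen x z = c then b (x⁻¹ * z) ^ 2 else 0 with hB
  set Kn : ℝ := (n + 1) * (2 * (2 * n + 1) ^ 6) with hKn
  have hA'nn : ∀ c, 0 ≤ A' c := fun c => Finset.sum_nonneg (fun x _ => by split_ifs <;> positivity)
  have hBnn : ∀ c z, 0 ≤ B c z := fun c z =>
    Finset.sum_nonneg (fun x _ => by split_ifs <;> positivity)
  have hKn0 : 0 ≤ Kn := by positivity
  have hz : ∀ z, (∑ x ∈ F, a x * b (x⁻¹ * z)) ^ 2 ≤ Kn * ∑ c ∈ C, A' c * B c z := by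
    intro z
    set Cz := F.image (fun x => cen x z) with hCz
    have h1 : ∑ x ∈ F, a x * b (x⁻¹ * z) = ∑ c ∈ Cz, ∑ x ∈ F with cen x z = c,
        a x * b (x⁻¹ * z) := by
      rw [Finset.sum_fiberwise_of_maps_to]
      intro x hx
      exact Finset.mem_image_of_mem _ hx
    rw [h1]
    have h2 : (Cz.card : ℝ) ≤ Kn := by
      have h3 : Cz ⊆ cset S n z := by
        intro c hc
        rw [hCz, Finset.mem_image] at hc
        obtain ⟨x, hx, rfl⟩ := hc
        exact cen_mem_cset S x z n (hF x hx)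
      have h4 := (Finset.card_le_card h3).trans (card_cset S n z)
      rw [hKn]
      exact_mod_cast h4
    have h3 : (∑ c ∈ Cz, ∑ x ∈ F with cen x z = c, a x * b (x⁻¹ * z)) ^ 2 ≤
        Cz.card * ∑ c ∈ Cz, (∑ x ∈ F with cen x z = c, a x * b (x⁻¹ * z)) ^ 2 :=
      sq_sum_le_card_mul_sum_sq
    have h4 : ∀ c ∈ Cz, (∑ x ∈ F with cen x z = c, a x * b (x⁻¹ * z)) ^ 2 ≤ A' c * B c z := by
      intro c _
      refine (Finset.sum_mul_sq_le_sq_mul_sq _ _ _).trans ?_
      apply mul_le_mul _ _ (Finset.sum_nonneg (fun x _ => sq_nonneg _)) (hA'nn c)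
      · rw [hA', Finset.sum_filter]
        apply Finset.sum_le_sum
        intro x hx
        by_cases hc : cen x z = c
        · rw [if_pos hc, if_pos]
          rw [← hc]
          exact cen_mem_pre S x z n (hF x hx)
        · rw [if_neg hc]
          split_ifs <;> positivity
      · rw [hB, Finset.sum_filter]
    have h5 : ∑ c ∈ Cz, (∑ x ∈ F with cen x z = c, a x * b (x⁻¹ * z)) ^ 2 ≤
        ∑ c ∈ C, A' c * B c z := by
      refine (Finset.sum_le_sum h4).trans ?_
      apply Finset.sum_le_sum_of_subset_of_nonneg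
      · intro c hc
        rw [hCz, Finset.mem_image] at hc
        obtain ⟨x, hx, rfl⟩ := hc
        rw [hC, Finset.mem_biUnion]
        exact ⟨x, hx, cen_mem_pre S x z n (hF x hx)⟩
      · intro c _ _
        exact mul_nonneg (hA'nn c) (hBnn c z)
    calc _ ≤ _ := h3
      _ ≤ Kn * ∑ c ∈ C, A' c * B c z := by
          apply mul_le_mul h2 h5 (Finset.sum_nonneg (fun c _ => sq_nonneg _)) hKn0
  have hsumA : ∑ c ∈ C, A' c ≤ (n + 1) * ∑ x ∈ F, a x ^ 2 := by
    rw [hA', Finset.sum_comm, Finset.mul_sum]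
    apply Finset.sum_le_sum
    intro x _
    rw [← Finset.sum_filter, Finset.sum_const, nsmul_eq_mul]
    apply mul_le_mul_of_nonneg_right _ (sq_nonneg _)
    have h1 : (C.filter (fun c => c ∈ pre n x)) ⊆ pre n x := by
      intro c hc
      exact (Finset.mem_filter.1 hc).2
    have := (Finset.card_le_card h1).trans (card_pre n x)
    exact_mod_cast this
  have hsumB : ∀ c, ∑ z ∈ T, B c z ≤ (n + 1) * ∑ y ∈ Y, b y ^ 2 := by
    intro c
    exact key_c S n c F T Y hF (fun y => b y ^ 2) (fun y => sq_nonneg _)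
      (fun y hy => by simp [hY y hy])
  calc ∑ z ∈ T, (∑ x ∈ F, a x * b (x⁻¹ * z)) ^ 2 ≤ ∑ z ∈ T, Kn * ∑ c ∈ C, A' c * B c z :=
        Finset.sum_le_sum (fun z _ => hz z)
    _ = Kn * ∑ c ∈ C, A' c * ∑ z ∈ T, B c z := by
        rw [← Finset.mul_sum, Finset.sum_comm]
        congr 1
        apply Finset.sum_congr rfl
        intro c _
        rw [Finset.mul_sum]
    _ ≤ Kn * ∑ c ∈ C, A' c * ((n + 1) * ∑ y ∈ Y, b y ^ 2) := by
        apply mul_le_mul_of_nonneg_left _ hKn0
        apply Finset.sum_le_sum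
        intro c _
        exact mul_le_mul_of_nonneg_left (hsumB c) (hA'nn c)
    _ = Kn * (∑ c ∈ C, A' c) * ((n + 1) * ∑ y ∈ Y, b y ^ 2) := by
        rw [← Finset.sum_mul]; ring
    _ ≤ Kn * ((n + 1) * ∑ x ∈ F, a x ^ 2) * ((n + 1) * ∑ y ∈ Y, b y ^ 2) := by
        apply mul_le_mul_of_nonneg_right
        · exact mul_le_mul_of_nonneg_left hsumA hKn0
        · have : 0 ≤ ∑ y ∈ Y, b y ^ 2 := Finset.sum_nonneg (fun y _ => sq_nonneg _)
          positivity
    _ = _ := by ring

lemma sum_inv_sq' (m : ℕ) :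
    ∑ n ∈ range (m + 1), (1 : ℝ) / ((n : ℝ) + 1) ^ 2 ≤ 2 - 1 / ((m : ℝ) + 1) := by
  induction m with
  | zero => norm_num
  | succ m ih =>
    rw [Finset.sum_range_succ]
    have h1 : (1 : ℝ) / (((m + 1 : ℕ) : ℝ) + 1) ^ 2 ≤ 1 / ((m : ℝ) + 1) - 1 / ((m : ℝ) + 2) := by
      have h2 : (1 : ℝ) / ((m : ℝ) + 1) - 1 / ((m : ℝ) + 2) =
          1 / (((m : ℝ) + 1) * ((m : ℝ) + 2)) := by
        field_simp
        ring
      rw [h2]
      apply one_div_le_one_div_of_le (by positivity)
      push_cast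
      have : (0 : ℝ) ≤ m := Nat.cast_nonneg m
      nlinarith
    have h3 : (((m + 1 : ℕ) : ℝ) + 1) = (m : ℝ) + 2 := by push_cast; ring
    rw [h3] at h1 ⊢
    linarith

lemma sum_inv_sq (m : ℕ) : ∑ n ∈ range m, (1 : ℝ) / ((n : ℝ) + 1) ^ 2 ≤ 2 := by
  have h1 : ∑ n ∈ range m, (1 : ℝ) / ((n : ℝ) + 1) ^ 2 ≤
      ∑ n ∈ range (m + 1), (1 : ℝ) / ((n : ℝ) + 1) ^ 2 := by
    apply Finset.sum_le_sum_of_subset_of_nonneg
    · exact Finset.range_mono (by omega)
    · intro i _ _; positivity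
  have h2 := sum_inv_sq' m
  have h3 : 0 ≤ 1 / ((m : ℝ) + 1) := by positivity
  linarith

/-- Rapid decay with respect to `NN`. -/
lemma rapid (f g : FP M →₀ ℝ) (T : Finset (FP M)) :
    ∑ x ∈ T, (f.sum (fun y a => a * g (y⁻¹ * x))) ^ 2 ≤
      256 * (f.sum (fun x a => a ^ 2 * (1 + (NN S x : ℝ)) ^ 12)) * g.sum (fun _ a => a ^ 2) := by
  classical
  set m := (f.support.sup (NN S)) + 1 with hm
  let F : ℕ → Finset (FP M) := fun n => f.support.filter (fun y => NN S y = n)
  let c : ℕ → FP M → ℝ := fun n x => ∑ y ∈ F n, f y * g (y⁻¹ * x)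
  have h1 : ∀ x, f.sum (fun y a => a * g (y⁻¹ * x)) = ∑ n ∈ range m, c n x := by
    intro x
    simp only [Finsupp.sum, c, F]
    rw [Finset.sum_fiberwise_of_maps_to]
    intro y hy
    rw [Finset.mem_range, hm]
    have := Finset.le_sup (f := NN S) hy
    omega
  have h2 : ∀ x, (∑ n ∈ range m, c n x) ^ 2 ≤ 2 * ∑ n ∈ range m, ((n : ℝ) + 1) ^ 2 * c n x ^ 2 := by
    intro x
    have h3 : ∑ n ∈ range m, c n x = ∑ n ∈ range m, (1 / ((n : ℝ) + 1)) * (((n : ℝ) + 1) * c n x) := by
      apply Finset.sum_congr rfl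
      intro n _
      have : ((n : ℝ) + 1) ≠ 0 := by positivity
      field_simp
    rw [h3]
    refine (Finset.sum_mul_sq_le_sq_mul_sq _ _ _).trans ?_
    apply mul_le_mul _ _ (Finset.sum_nonneg (fun n _ => sq_nonneg _)) (by norm_num)
    · refine le_trans (le_of_eq ?_) (sum_inv_sq m)
      apply Finset.sum_congr rfl
      intro n _
      rw [div_pow, one_pow]
    · apply le_of_eq
      apply Finset.sum_congr rfl
      intro n _
      rw [mul_pow]
  have h3 : ∀ n, ∑ x ∈ T, c n x ^ 2 ≤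
      ((n + 1) * (2 * (2 * n + 1) ^ 6) * ((n + 1) * (n + 1)) : ℝ) *
        (∑ y ∈ F n, f y ^ 2) * g.sum (fun _ a => a ^ 2) := by
    intro n
    have := ball_ineq S n (F n) T g.support (fun x hx => (Finset.mem_filter.1 hx).2.le)
      (fun y => f y) (fun y => g y) (fun y hy => Finsupp.notMem_support_iff.1 hy)
    exact this
  have hg : 0 ≤ g.sum (fun _ a => a ^ 2) := Finset.sum_nonneg (fun y _ => sq_nonneg _)
  have h4 : ∀ n : ℕ, ((n : ℝ) + 1) ^ 2 * (((n + 1) * (2 * (2 * n + 1) ^ 6) * ((n + 1) * (n + 1)) : ℝ)) ≤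
      128 * (1 + (n : ℝ)) ^ 12 := by
    intro n
    have h5 : (0 : ℝ) ≤ n := Nat.cast_nonneg n
    have h6 : (2 * (n : ℝ) + 1) ^ 6 ≤ (2 * (n + 1)) ^ 6 := by
      apply pow_le_pow_left₀ <;> linarith
    have h7 : (1 + (n : ℝ)) ^ 11 ≤ (1 + (n : ℝ)) ^ 12 := by
      apply pow_le_pow_right₀ <;> first | linarith | norm_num
    calc ((n : ℝ) + 1) ^ 2 * (((n + 1) * (2 * (2 * n + 1) ^ 6) * ((n + 1) * (n + 1)) : ℝ))
        = 2 * ((n : ℝ) + 1) ^ 5 * (2 * (n : ℝ) + 1) ^ 6 := by ring
      _ ≤ 2 * ((n : ℝ) + 1) ^ 5 * (2 * (n + 1)) ^ 6 := by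
          apply mul_le_mul_of_nonneg_left h6; positivity
      _ = 128 * (1 + (n : ℝ)) ^ 11 := by ring
      _ ≤ _ := by linarith
  calc ∑ x ∈ T, (f.sum (fun y a => a * g (y⁻¹ * x))) ^ 2
      = ∑ x ∈ T, (∑ n ∈ range m, c n x) ^ 2 := by
        apply Finset.sum_congr rfl
        intro x _; rw [h1]
    _ ≤ ∑ x ∈ T, 2 * ∑ n ∈ range m, ((n : ℝ) + 1) ^ 2 * c n x ^ 2 :=
        Finset.sum_le_sum (fun x _ => h2 x)
    _ = 2 * ∑ n ∈ range m, ((n : ℝ) + 1) ^ 2 * ∑ x ∈ T, c n x ^ 2 := by
        rw [← Finset.mul_sum, Finset.sum_comm]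
        congr 1
        apply Finset.sum_congr rfl
        intro n _
        rw [Finset.mul_sum]
    _ ≤ 2 * ∑ n ∈ range m, (128 * (1 + (n : ℝ)) ^ 12) * (∑ y ∈ F n, f y ^ 2) *
          g.sum (fun _ a => a ^ 2) := by
        apply mul_le_mul_of_nonneg_left _ (by norm_num)
        apply Finset.sum_le_sum
        intro n _
        calc ((n : ℝ) + 1) ^ 2 * ∑ x ∈ T, c n x ^ 2 ≤ ((n : ℝ) + 1) ^ 2 *
            (((n + 1) * (2 * (2 * n + 1) ^ 6) * ((n + 1) * (n + 1)) : ℝ) *
            (∑ y ∈ F n, f y ^ 2) * g.sum (fun _ a => a ^ 2)) :=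
              mul_le_mul_of_nonneg_left (h3 n) (by positivity)
          _ = (((n : ℝ) + 1) ^ 2 * (((n + 1) * (2 * (2 * n + 1) ^ 6) * ((n + 1) * (n + 1)) : ℝ))) *
            ((∑ y ∈ F n, f y ^ 2) * g.sum (fun _ a => a ^ 2)) := by ring
          _ ≤ (128 * (1 + (n : ℝ)) ^ 12) * ((∑ y ∈ F n, f y ^ 2) * g.sum (fun _ a => a ^ 2)) := by
              apply mul_le_mul_of_nonneg_right (h4 n)
              apply mul_nonneg _ hg
              exact Finset.sum_nonneg (fun y _ => sq_nonneg _)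
          _ = _ := by ring
    _ = 256 * (f.sum (fun x a => a ^ 2 * (1 + (NN S x : ℝ)) ^ 12)) * g.sum (fun _ a => a ^ 2) := by
        rw [← Finset.sum_mul]
        have h8 : ∑ n ∈ range m, (128 * (1 + (n : ℝ)) ^ 12) * (∑ y ∈ F n, f y ^ 2) =
            128 * f.sum (fun x a => a ^ 2 * (1 + (NN S x : ℝ)) ^ 12) := by
          have h9 : f.sum (fun x a => a ^ 2 * (1 + (NN S x : ℝ)) ^ 12) =
              ∑ n ∈ range m, ∑ y ∈ F n, f y ^ 2 * (1 + (NN S y : ℝ)) ^ 12 := by
            simp only [Finsupp.sum, F]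
            rw [Finset.sum_fiberwise_of_maps_to]
            intro y hy
            rw [Finset.mem_range, hm]
            have := Finset.le_sup (f := NN S) hy
            omega
          rw [h9, Finset.mul_sum]
          apply Finset.sum_congr rfl
          intro n _
          rw [Finset.mul_sum, Finset.mul_sum]
          apply Finset.sum_congr rfl
          intro y hy
          have : NN S y = n := (Finset.mem_filter.1 hy).2
          rw [this]; ring
        rw [h8]; ring

end X141.RD
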