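import Pool.Agent.X141.RD.Taub
import Pool.Agent.X141.RD.Decay

set_option autoImplicit false
set_option linter.unusedSectionVars false
set_option linter.unusedVariables false

namespace X141.RD

open Monoid Finset Filter

/-- sup norm -/
def s6 (u : M6) : ℕ := univ.sup (fun i : Fin 6 => (Multiplicative.toAdd u i).natAbs)

lemma le_s6 (u : M6) (i : Fin 6) : (Multiplicative.toAdd u i).natAbs ≤ s6 u :=
  Finset.le_sup (f := fun i : Fin 6 => (Multiplicative.toAdd u i).natAbs) (Finset.mem_univ i)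

lemma s6_le {u : M6} {n : ℕ} (h : ∀ i, (Multiplicative.toAdd u i).natAbs ≤ n) : s6 u ≤ n :=
  Finset.sup_le (fun i _ => h i)

/-- size function of `ℤ⁶` -/
noncomputable def S6 : Size M6 where
  sz := s6
  one := by
    apply Nat.le_antisymm _ (Nat.zero_le _)
    apply s6_le
    intro i
    simp
  mul a b := by
    apply s6_le
    intro i
    have h1 := le_s6 a i
    have h2 := le_s6 b i
    have h3 : Multiplicative.toAdd (a * b) i = Multiplicative.toAdd a i + Multiplicative.toAdd b i := rfl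
    rw [h3]
    have h4 := Int.natAbs_add_le (Multiplicative.toAdd a i) (Multiplicative.toAdd b i)
    omega
  pos a ha := by
    by_contra hc
    apply ha
    have h : ∀ i, Multiplicative.toAdd a i = 0 := by
      intro i
      have h1 := le_s6 a i
      omega
    have : Multiplicative.toAdd a = 0 := funext h
    exact this
  ball n := (Fintype.piFinset (fun _ : Fin 6 => Finset.Icc (-(n : ℤ)) n)).map
    Multiplicative.ofAdd.toEmbedding
  mem a n h := by
    rw [Finset.mem_map_equiv, Fintype.mem_piFinset]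
    intro i
    have h1 := le_s6 a i
    have h2 : (Multiplicative.toAdd a i).natAbs ≤ n := h1.trans h
    rw [Finset.mem_Icc]
    change -(n : ℤ) ≤ Multiplicative.toAdd a i ∧ Multiplicative.toAdd a i ≤ n
    omega
  card n := by
    rw [Finset.card_map, Fintype.card_piFinset]
    simp only [Int.card_Icc, Finset.prod_const, Finset.card_univ, Fintype.card_fin]
    apply le_of_eq
    congr 1
    omega

/-- generators of `ℤ⁶` -/
def ej (j : Fin 6) : M6 := Multiplicative.ofAdd (Pi.single j 1)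

lemma sz_ej (j : Fin 6) : S6.sz (ej j) ≤ 1 := by
  apply s6_le
  intro i
  have : Multiplicative.toAdd (ej j) i = (Pi.single j 1 : Fin 6 → ℤ) i := rfl
  rw [this]
  by_cases h : i = j
  · rw [h, Pi.single_eq_same]; simp
  · rw [Pi.single_eq_of_ne h]; simp

lemma sz_inv (u : M6) : S6.sz u⁻¹ = S6.sz u := by
  change univ.sup (fun i : Fin 6 => (Multiplicative.toAdd u⁻¹ i).natAbs) =
    univ.sup (fun i : Fin 6 => (Multiplicative.toAdd u i).natAbs)
  congr 1
  funext i
  have : Multiplicative.toAdd u⁻¹ i = - Multiplicative.toAdd u i := rfl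
  rw [this, Int.natAbs_neg]

open Classical in
/-- the generating set -/
noncomputable def Sg : Finset (FP M6) :=
  (univ : Finset (Bool × Fin 6)).image (fun p => inc p.1 (ej p.2))

lemma mem_Sg {x : FP M6} : x ∈ Sg ↔ ∃ i j, inc i (ej j) = x := by
  unfold Sg
  rw [Finset.mem_image]
  constructor
  · rintro ⟨⟨i, j⟩, _, h⟩; exact ⟨i, j, h⟩
  · rintro ⟨i, j, h⟩; exact ⟨(i, j), Finset.mem_univ _, h⟩

lemma closure_Sg : Subgroup.closure (Sg : Set (FP M6)) = ⊤ := by
  have hfac : ∀ (i : Bool) (m : M6), inc i m ∈ Subgroup.closure (Sg : Set (FP M6)) := by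
    intro i m
    have h1 : m = ∏ j, (ej j) ^ (Multiplicative.toAdd m j) := by
      apply Multiplicative.toAdd.injective
      rw [toAdd_prod]
      funext k
      rw [Finset.sum_apply, Finset.sum_eq_single k]
      · simp [ej, toAdd_zpow]
      · intro j _ hj
        simp [ej, toAdd_zpow, Pi.single_eq_of_ne hj.symm]
      · intro h; exact absurd (Finset.mem_univ k) h
    have h2 : m ∈ (Subgroup.closure (Sg : Set (FP M6))).comap (inc i) := by
      rw [h1]
      apply Subgroup.prod_mem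
      intro j _
      apply Subgroup.zpow_mem
      rw [Subgroup.mem_comap]
      apply Subgroup.subset_closure
      rw [Finset.mem_coe, mem_Sg]
      exact ⟨i, j, rfl⟩
    exact h2
  rw [eq_top_iff]
  intro x _
  induction x using CoprodI.induction_on with
  | one => exact one_mem _
  | of i m => exact hfac i m
  | mul x y hx hy => exact mul_mem (hx trivial) (hy trivial)

/-- word length -/
noncomputable def wl (x : FP M6) : ℕ := sInf {n : ℕ | ∃ l : List (FP M6), l.length = n ∧
                      (∀ y ∈ l, y ∈ Sg ∨ y⁻¹ ∈ Sg) ∧ l.prod = x}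

lemma NN_list (l : List (FP M6)) (h : ∀ y ∈ l, y ∈ Sg ∨ y⁻¹ ∈ Sg) : NN S6 l.prod ≤ l.length := by
  induction l with
  | nil => simp [NN_one]
  | cons a l ih =>
    rw [List.prod_cons, List.length_cons]
    have h1 := ih (fun y hy => h y (List.mem_cons_of_mem _ hy))
    have h2 : ∃ i m, a = inc i m ∧ S6.sz m ≤ 1 := by
      rcases h a List.mem_cons_self with h2 | h2
      · obtain ⟨i, j, e⟩ := mem_Sg.1 h2
        exact ⟨i, ej j, e.symm, sz_ej j⟩
      · obtain ⟨i, j, e⟩ := mem_Sg.1 h2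
        refine ⟨i, (ej j)⁻¹, ?_, ?_⟩
        · rw [_root_.map_inv, e, inv_inv]
        · rw [sz_inv]; exact sz_ej j
    obtain ⟨i, m, e, hm⟩ := h2
    rw [e]
    have h3 := NN_inc_mul S6 i m hm l.prod
    omega

lemma NN_le_wl (x : FP M6) : NN S6 x ≤ wl x := by
  have hne : {n : ℕ | ∃ l : List (FP M6), l.length = n ∧
                      (∀ y ∈ l, y ∈ Sg ∨ y⁻¹ ∈ Sg) ∧ l.prod = x}.Nonempty := by
    have h1 : x ∈ Subgroup.closure (Sg : Set (FP M6)) := by rw [closure_Sg]; trivial
    rw [← Subgroup.mem_toSubmonoid, Subgroup.closure_toSubmonoid] at h1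
    obtain ⟨l, h2, h3⟩ := Submonoid.exists_list_of_mem_closure h1
    refine ⟨l.length, l, rfl, ?_, h3⟩
    intro y hy
    rcases h2 y hy with h4 | h4
    · exact Or.inl h4
    · exact Or.inr h4
  obtain ⟨l, h1, h2, h3⟩ := Nat.sInf_mem hne
  have h4 := NN_list l h2
  rw [h3, h1] at h4
  exact h4

lemma rapid_wl (f g : FP M6 →₀ ℝ) (T : Finset (FP M6)) :
    ∑ x ∈ T, (f.sum (fun y a => a * g (y⁻¹ * x))) ^ 2 ≤
      256 * (f.sum (fun x a => a ^ 2 * (1 + ((wl x : ℕ) : ℝ)) ^ (2 * 6))) *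
        g.sum (fun _ a => a ^ 2) := by
  refine (rapid S6 f g T).trans ?_
  apply mul_le_mul_of_nonneg_right _ (Finset.sum_nonneg (fun y _ => sq_nonneg _))
  apply mul_le_mul_of_nonneg_left _ (by norm_num)
  apply Finset.sum_le_sum
  intro x _
  apply mul_le_mul_of_nonneg_left _ (sq_nonneg _)
  norm_num
  apply pow_le_pow_left₀ (by positivity)
  have : (NN S6 x : ℝ) ≤ wl x := by exact_mod_cast NN_le_wl x
  linarith

/-- the norm -/
lemma young (g : FP M6 →₀ ℝ) (T : Finset (FP M6)) :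
    ∑ x ∈ T, (nu.sum (fun y a => a * g (y⁻¹ * x))) ^ 2 ≤ g.sum (fun _ a => a ^ 2) := by
  classical
  have h1 : ∀ x, (nu.sum (fun y a => a * g (y⁻¹ * x))) ^ 2 ≤
      ∑ y ∈ nu.support, nu y * g (y⁻¹ * x) ^ 2 := by
    intro x
    have h2 := Finset.sum_sq_le_sum_mul_sum_of_sq_le_mul nu.support
      (r := fun y => nu y * g (y⁻¹ * x)) (f := fun y => nu y) (g := fun y => nu y * g (y⁻¹ * x) ^ 2)
      (fun y _ => nu_nonneg y) (fun y _ => mul_nonneg (nu_nonneg y) (sq_nonneg _))
      (fun y _ => le_of_eq (by ring))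
    have h3 := nu_mass
    unfold Finsupp.sum at h3 ⊢
    rw [h3, one_mul] at h2
    exact h2
  have h2 : ∀ y : FP M6, ∑ x ∈ T, g (y⁻¹ * x) ^ 2 ≤ g.sum (fun _ a => a ^ 2) := by
    intro y
    have h3 : ∑ x ∈ T, g (y⁻¹ * x) ^ 2 = ∑ z ∈ T.image (fun x => y⁻¹ * x), g z ^ 2 := by
      rw [Finset.sum_image]
      intro a _ b _ h
      exact mul_left_cancel h
    rw [h3]
    unfold Finsupp.sum
    calc ∑ z ∈ T.image (fun x => y⁻¹ * x), g z ^ 2
        ≤ ∑ z ∈ T.image (fun x => y⁻¹ * x) ∪ g.support, g z ^ 2 :=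
          Finset.sum_le_sum_of_subset_of_nonneg Finset.subset_union_left
            (fun _ _ _ => sq_nonneg _)
      _ = ∑ z ∈ g.support, g z ^ 2 := by
          symm
          apply Finset.sum_subset Finset.subset_union_right
          intro z _ hz
          rw [Finsupp.notMem_support_iff.1 hz]; norm_num
  calc ∑ x ∈ T, (nu.sum (fun y a => a * g (y⁻¹ * x))) ^ 2
      ≤ ∑ x ∈ T, ∑ y ∈ nu.support, nu y * g (y⁻¹ * x) ^ 2 := Finset.sum_le_sum (fun x _ => h1 x)
    _ = ∑ y ∈ nu.support, nu y * ∑ x ∈ T, g (y⁻¹ * x) ^ 2 := by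
        rw [Finset.sum_comm]
        apply Finset.sum_congr rfl
        intro y _
        rw [Finset.mul_sum]
    _ ≤ ∑ y ∈ nu.support, nu y * g.sum (fun _ a => a ^ 2) :=
        Finset.sum_le_sum (fun y _ => mul_le_mul_of_nonneg_left (h2 y) (nu_nonneg y))
    _ = g.sum (fun _ a => a ^ 2) := by
        rw [← Finset.sum_mul]
        have h3 := nu_mass
        unfold Finsupp.sum at h3
        rw [h3, one_mul]

lemma exists_rho : ∃ ρ : ℝ, 0 ≤ ρ ∧
          (∀ g : FP M6 →₀ ℝ, ∀ T : Finset (FP M6),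
            ∑ x ∈ T, (nu.sum (fun y a => a * g (y⁻¹ * x))) ^ 2 ≤
              ρ ^ 2 * g.sum (fun _ a => a ^ 2)) ∧
          (∀ r : ℝ, 0 ≤ r → r < ρ → ∃ g : FP M6 →₀ ℝ, ∃ T : Finset (FP M6),
            r ^ 2 * g.sum (fun _ a => a ^ 2) <
              ∑ x ∈ T, (nu.sum (fun y a => a * g (y⁻¹ * x))) ^ 2) := by
  set A : Set ℝ := {r | 0 ≤ r ∧ ∀ g : FP M6 →₀ ℝ, ∀ T : Finset (FP M6),
            ∑ x ∈ T, (nu.sum (fun y a => a * g (y⁻¹ * x))) ^ 2 ≤
              r ^ 2 * g.sum (fun _ a => a ^ 2)} with hA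
  have hne : A.Nonempty := ⟨1, by norm_num, fun g T => by
    rw [one_pow, one_mul]; exact young g T⟩
  have hbdd : BddBelow A := ⟨0, fun r hr => hr.1⟩
  have h0 : 0 ≤ sInf A := le_csInf hne (fun r hr => hr.1)
  refine ⟨sInf A, h0, ?_, ?_⟩
  · intro g T
    have hY : 0 ≤ g.sum (fun _ a => a ^ 2) := Finset.sum_nonneg (fun y _ => sq_nonneg _)
    rcases eq_or_lt_of_le hY with h | h
    · rw [← h, mul_zero, h]
      exact young g T
    · by_contra hc
      push Not at hc
      set X := ∑ x ∈ T, (nu.sum (fun y a => a * g (y⁻¹ * x))) ^ 2 with hX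
      set Y := g.sum (fun _ a => a ^ 2) with hYdef
      have h1 : sInf A < √(X / Y) := by
        apply Real.lt_sqrt_of_sq_lt
        rw [lt_div_iff₀ h]; exact hc
      obtain ⟨r, hr, hr2⟩ := exists_lt_of_csInf_lt hne h1
      have h2 := hr.2 g T
      rw [← hX, ← hYdef] at h2
      have h3 : r ^ 2 < X / Y := (Real.lt_sqrt hr.1).1 hr2
      rw [lt_div_iff₀ h] at h3
      linarith
  · intro r hr hr2
    by_contra hc
    push Not at hc
    exact notMem_of_lt_csInf hr2 hbdd ⟨hr, hc⟩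

end X141.RD
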