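import Pool.Agent.X141.RD.Lazy

set_option autoImplicit false
set_option linter.unusedSectionVars false

namespace X141.RD

open Finset Filter

/-! ### The power series -/

lemma summable_inv_cube : Summable (fun n : ℕ => 1 / ((n : ℝ) + 1) ^ 3) := by
  have h := (summable_nat_add_iff 1).2 (Real.summable_one_div_nat_pow.2 (by norm_num : 1 < 3))
  refine h.congr ?_
  intro n; push_cast; rfl

lemma summable_inv_sq : Summable (fun n : ℕ => 1 / ((n : ℝ) + 1) ^ 2) := by
  have h := (summable_nat_add_iff 1).2 (Real.summable_one_div_nat_pow.2 (by norm_num : 1 < 2))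
  refine h.congr ?_
  intro n; push_cast; rfl

lemma summable_pn : Summable pn :=
  Summable.of_nonneg_of_le (fun n => (pn_pos n).le) pn_le summable_inv_cube

lemma summable_pnD : Summable (fun n : ℕ => ((n : ℝ) + 1) * pn n) := by
  apply Summable.of_nonneg_of_le (fun n => ?_) (fun n => ?_) summable_inv_sq
  · exact mul_nonneg (by positivity) (pn_pos n).le
  · calc ((n : ℝ) + 1) * pn n ≤ ((n : ℝ) + 1) * (1 / ((n : ℝ) + 1) ^ 3) :=
        mul_le_mul_of_nonneg_left (pn_le n) (by positivity)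
      _ = _ := by field_simp

/-- `h(x) = ∑ pₙ x^{n+1}` -/
noncomputable def hx (x : ℝ) : ℝ := ∑' n, pn n * x ^ (n + 1)

/-- `h(1)` -/
noncomputable def h1 : ℝ := ∑' n, pn n

/-- `h'(1)` -/
noncomputable def DD : ℝ := ∑' n : ℕ, ((n : ℝ) + 1) * pn n

lemma hx_one : hx 1 = h1 := by unfold hx h1; simp

lemma summable_hx {x : ℝ} (h0 : 0 ≤ x) (hx1 : x ≤ 1) : Summable (fun n => pn n * x ^ (n + 1)) := by
  apply Summable.of_nonneg_of_le (fun n => ?_) (fun n => ?_) summable_pn
  · exact mul_nonneg (pn_pos n).le (by positivity)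
  · calc pn n * x ^ (n + 1) ≤ pn n * 1 :=
        mul_le_mul_of_nonneg_left (pow_le_one₀ h0 hx1) (pn_pos n).le
      _ = _ := mul_one _

lemma one_le_h1 : 1 ≤ h1 := by
  have := summable_pn.sum_le_tsum (range 1) (fun n _ => (pn_pos n).le)
  simpa [pn_zero, h1] using this

lemma h1_pos : 0 < h1 := lt_of_lt_of_le one_pos one_le_h1

lemma h1_sq_lt : h1 ^ 2 < DD := by
  have hs := summable_pn
  have hn : Summable (fun n => ‖pn n‖) := by
    refine hs.congr ?_
    intro n
    rw [Real.norm_of_nonneg (pn_pos n).le]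
  have h2 := tsum_mul_tsum_eq_tsum_sum_antidiagonal_of_summable_norm hn hn
  have hsq : h1 ^ 2 = ∑' n, ∑ kl ∈ Finset.HasAntidiagonal.antidiagonal n, pn kl.1 * pn kl.2 := by
    rw [← h2, sq]; rfl
  rw [hsq]
  have hle : ∀ n, ∑ kl ∈ Finset.HasAntidiagonal.antidiagonal n, pn kl.1 * pn kl.2 ≤ ((n : ℝ) + 1) * pn n := by
    intro n
    calc ∑ kl ∈ Finset.HasAntidiagonal.antidiagonal n, pn kl.1 * pn kl.2 ≤ ∑ kl ∈ Finset.HasAntidiagonal.antidiagonal n, pn n := by
          apply Finset.sum_le_sum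
          intro kl hkl
          rw [Finset.HasAntidiagonal.mem_antidiagonal] at hkl
          rw [← hkl]
          exact pn_mul_le _ _
      _ = _ := by
          rw [Finset.sum_const, Finset.Nat.card_antidiagonal, nsmul_eq_mul]
          push_cast; ring
  have hnn : ∀ n, 0 ≤ ∑ kl ∈ Finset.HasAntidiagonal.antidiagonal n, pn kl.1 * pn kl.2 := fun n =>
    Finset.sum_nonneg (fun kl _ => mul_nonneg (pn_pos _).le (pn_pos _).le)
  have hsum : Summable (fun n => ∑ kl ∈ Finset.HasAntidiagonal.antidiagonal n, pn kl.1 * pn kl.2) :=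
    Summable.of_nonneg_of_le hnn hle summable_pnD
  apply Summable.tsum_lt_tsum hle _ hsum summable_pnD (i := 2)
  have e1 : an 1 = 1 / 2 := by
    have := an_succ 0
    rw [an_zero] at this
    simpa using this
  have e2 : an 2 = 3 / 8 := by
    have := an_succ 1
    rw [e1] at this
    norm_num at this
    exact this
  have : Finset.HasAntidiagonal.antidiagonal 2 = {(0, 2), (1, 1), (2, 0)} := by decide
  rw [this]
  rw [Finset.sum_insert (by decide), Finset.sum_insert (by decide), Finset.sum_singleton]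
  simp only [pn, e1, e2, an_zero]
  norm_num

lemma DD_pos : 0 < DD := lt_trans (pow_pos h1_pos 2) h1_sq_lt

/-! ### The second order remainder -/

/-- `m y - 1 + (1-y)^m` -/
noncomputable def ee (m : ℕ) (y : ℝ) : ℝ := m * y - 1 + (1 - y) ^ m

lemma ee_nonneg (m : ℕ) {y : ℝ} (hy1 : y ≤ 1) : 0 ≤ ee m y := by
  have := one_add_mul_le_pow (by linarith : (-2 : ℝ) ≤ -y) m
  unfold ee
  have h : (1 + -y) = 1 - y := by ring
  rw [h] at this
  linarith

lemma pow_le_quad (m : ℕ) {y : ℝ} (h0 : 0 ≤ y) (hy1 : y ≤ 1) :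
    (1 - y) ^ m ≤ 1 - m * y + (m * y) ^ 2 := by
  induction m with
  | zero => simp
  | succ m ih =>
    rw [pow_succ]
    have h2 : 0 ≤ 1 - y := by linarith
    have h3 := mul_le_mul_of_nonneg_right ih h2
    refine h3.trans ?_
    push_cast
    have hm : (0 : ℝ) ≤ m := Nat.cast_nonneg m
    have h5 : 0 ≤ (m : ℝ) ^ 2 * y ^ 3 := by positivity
    have h6 : 0 ≤ (m : ℝ) * y ^ 2 := by positivity
    nlinarith [sq_nonneg y]

lemma ee_le_sq (m : ℕ) {y : ℝ} (h0 : 0 ≤ y) (hy1 : y ≤ 1) : ee m y ≤ (m * y) ^ 2 := by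
  unfold ee
  have := pow_le_quad m h0 hy1
  linarith

lemma ee_le_lin (m : ℕ) {y : ℝ} (h0 : 0 ≤ y) (hy1 : y ≤ 1) : ee m y ≤ m * y := by
  unfold ee
  have := pow_le_one₀ (n := m) (by linarith : 0 ≤ 1 - y) (by linarith : 1 - y ≤ 1)
  linarith

lemma ee_le_rpow (m : ℕ) {y η : ℝ} (h0 : 0 ≤ y) (hy1 : y ≤ 1) (hη0 : 0 < η) (hη1 : η < 1) :
    ee m y ≤ (m * y) ^ (2 - η) := by
  set t := (m : ℝ) * y with ht
  have ht0 : 0 ≤ t := by positivity
  rcases le_total t 1 with h | h
  · rcases eq_or_lt_of_le ht0 with h2 | h2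
    · have h3 := ee_le_sq m h0 hy1
      rw [← ht, ← h2] at h3
      rw [← h2, Real.zero_rpow (by linarith)]
      simpa using h3
    · have h3 := ee_le_sq m h0 hy1
      rw [← ht] at h3
      refine h3.trans ?_
      have h4 : t ^ 2 = t ^ (2 : ℝ) := by norm_cast
      rw [h4]
      exact Real.rpow_le_rpow_of_exponent_ge h2 h (by linarith)
  · have h3 := ee_le_lin m h0 hy1
    rw [← ht] at h3
    refine h3.trans ?_
    calc t = t ^ (1 : ℝ) := (Real.rpow_one t).symm
      _ ≤ _ := Real.rpow_le_rpow_of_exponent_le h (by linarith)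

lemma ee_succ (m : ℕ) (y : ℝ) : ee (m + 1) y = ee m y + y * (1 - (1 - y) ^ m) := by
  unfold ee
  rw [pow_succ]
  push_cast
  ring

lemma ee_ge (m : ℕ) {y : ℝ} (h0 : 0 ≤ y) (hmy : m * y ≤ 1 / 2) :
    y ^ 2 * (m * (m - 1)) / 4 ≤ ee m y := by
  induction m with
  | zero => simp [ee]
  | succ m ih =>
    have hm : (0 : ℝ) ≤ m := Nat.cast_nonneg m
    push_cast at hmy
    have hmy' : (m : ℝ) * y ≤ 1 / 2 := by nlinarith
    have h2 := ih hmy'
    rw [ee_succ]
    have hy1 : y ≤ 1 := by nlinarith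
    have h3 := pow_le_quad m h0 hy1
    have h4 : (m : ℝ) * y / 2 ≤ 1 - (1 - y) ^ m := by
      have : ((m : ℝ) * y) ^ 2 ≤ (1 / 2) * (m * y) := by
        rw [sq]
        exact mul_le_mul_of_nonneg_right hmy' (by positivity)
      linarith
    have h5 := mul_le_mul_of_nonneg_left h4 h0
    push_cast
    nlinarith

/-- `E(y)` -/
noncomputable def EE (y : ℝ) : ℝ := ∑' n, pn n * ee (n + 1) y

lemma summable_EE {y : ℝ} (h0 : 0 ≤ y) (hy1 : y ≤ 1) :
    Summable (fun n => pn n * ee (n + 1) y) := by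
  apply Summable.of_nonneg_of_le (fun n => ?_) (fun n => ?_) (summable_pnD.mul_left y)
  · exact mul_nonneg (pn_pos n).le (ee_nonneg _ hy1)
  · have := ee_le_lin (n + 1) h0 hy1
    push_cast at this
    calc pn n * ee (n + 1) y ≤ pn n * (((n : ℝ) + 1) * y) :=
          mul_le_mul_of_nonneg_left this (pn_pos n).le
      _ = _ := by ring

lemma summable_eta {η : ℝ} (hη : 0 < η) :
    Summable (fun n : ℕ => pn n * ((n : ℝ) + 1) ^ (2 - η)) := by
  have h := (summable_nat_add_iff 1).2 (Real.summable_nat_rpow.2 (by linarith : -1 - η < -1))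
  apply Summable.of_nonneg_of_le (fun n => ?_) (fun n => ?_) h
  · exact mul_nonneg (pn_pos n).le (by positivity)
  · have hn : (0 : ℝ) < (n : ℝ) + 1 := by positivity
    calc pn n * ((n : ℝ) + 1) ^ (2 - η) ≤ 1 / ((n : ℝ) + 1) ^ 3 * ((n : ℝ) + 1) ^ (2 - η) :=
          mul_le_mul_of_nonneg_right (pn_le n) (by positivity)
      _ = ((n + 1 : ℕ) : ℝ) ^ (-1 - η) := by
          push_cast
          have h3 : ((n : ℝ) + 1) ^ 3 = ((n : ℝ) + 1) ^ (3 : ℝ) := by norm_cast
          rw [h3, one_div, ← Real.rpow_neg hn.le, ← Real.rpow_add hn]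
          congr 1; ring

lemma EE_le {η : ℝ} (hη0 : 0 < η) (hη1 : η < 1) :
    ∃ C, 0 ≤ C ∧ ∀ y, 0 ≤ y → y ≤ 1 → EE y ≤ C * y ^ (2 - η) := by
  refine ⟨∑' n : ℕ, pn n * ((n : ℝ) + 1) ^ (2 - η), ?_, ?_⟩
  · exact tsum_nonneg (fun n => mul_nonneg (pn_pos n).le (by positivity))
  · intro y h0 hy1
    unfold EE
    rw [← tsum_mul_right]
    apply Summable.tsum_le_tsum _ (summable_EE h0 hy1) ((summable_eta hη0).mul_right _)
    intro n
    have h2 := ee_le_rpow (n + 1) h0 hy1 hη0 hη1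
    push_cast at h2
    rw [Real.mul_rpow (by positivity) h0] at h2
    calc pn n * ee (n + 1) y ≤ pn n * (((n : ℝ) + 1) ^ (2 - η) * y ^ (2 - η)) :=
          mul_le_mul_of_nonneg_left h2 (pn_pos n).le
      _ = _ := by ring

lemma EE_nonneg {y : ℝ} (hy1 : y ≤ 1) : 0 ≤ EE y :=
  tsum_nonneg (fun n => mul_nonneg (pn_pos n).le (ee_nonneg _ hy1))

lemma EE_ge (K : ℝ) : ∃ y0, 0 < y0 ∧ y0 ≤ 1 / 2 ∧ ∀ y, 0 < y → y ≤ y0 → K * y ^ 2 ≤ EE y := by
  have hdiv := Real.tendsto_sum_range_one_div_nat_succ_atTop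
  obtain ⟨N, hN⟩ := (hdiv.eventually_ge_atTop (256 * |K|)).exists
  refine ⟨1 / (2 * ((N : ℝ) + 2)), by positivity, ?_, ?_⟩
  · apply one_div_le_one_div_of_le (by norm_num)
    have : (0 : ℝ) ≤ N := Nat.cast_nonneg N
    linarith
  · intro y hy0 hy
    have hNN : (0 : ℝ) ≤ N := Nat.cast_nonneg N
    have hyN : ((N : ℝ) + 2) * y ≤ 1 / 2 := by
      rw [le_div_iff₀ (by positivity)] at hy
      linarith
    have hy1 : y ≤ 1 := by nlinarith
    -- partial sums over n = 1..N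
    have h2 : ∑ n ∈ range (N + 1), pn n * ee (n + 1) y ≤ EE y :=
      (summable_EE hy0.le hy1).sum_le_tsum _
        (fun n _ => mul_nonneg (pn_pos n).le (ee_nonneg _ hy1))
    refine le_trans ?_ h2
    rw [Finset.sum_range_succ']
    have h3 : ∀ n ∈ range N, y ^ 2 * (1 / 256 * (1 / ((n : ℝ) + 1))) ≤ pn (n + 1) * ee (n + 1 + 1) y := by
      intro n hn
      have hnN : (n : ℝ) + 1 ≤ N := by exact_mod_cast Finset.mem_range.1 hn
      have h4 := ee_ge (n + 1 + 1) hy0.le (by push_cast; nlinarith)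
      have h5 := pn_ge (n + 1) (by omega)
      push_cast at h4 h5
      have hn0 : (0 : ℝ) ≤ n := Nat.cast_nonneg n
      calc y ^ 2 * (1 / 256 * (1 / ((n : ℝ) + 1)))
          = (1 / (64 * ((n : ℝ) + 1) ^ 3)) * (y ^ 2 * (((n : ℝ) + 1) * ((n : ℝ) + 1)) / 4) := by
            field_simp
            norm_num
        _ ≤ (1 / (64 * ((n : ℝ) + 1) ^ 3)) * (y ^ 2 * (((n : ℝ) + 1 + 1) * ((n : ℝ) + 1 + 1 - 1)) / 4) := by
            apply mul_le_mul_of_nonneg_left _ (by positivity)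
            apply div_le_div_of_nonneg_right _ (by norm_num)
            apply mul_le_mul_of_nonneg_left _ (by positivity)
            nlinarith
        _ ≤ pn (n + 1) * ee (n + 1 + 1) y := by
            apply mul_le_mul h5 h4 _ (pn_pos _).le
            have : (0:ℝ) ≤ ((n : ℝ) + 1 + 1) * ((n : ℝ) + 1 + 1 - 1) := by nlinarith
            positivity
    have h6 := Finset.sum_le_sum h3
    rw [← Finset.mul_sum, ← Finset.mul_sum] at h6
    have h7 : 0 ≤ pn 0 * ee (0 + 1) y := mul_nonneg (pn_pos 0).le (ee_nonneg _ hy1)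
    have h8 : K ≤ 1 / 256 * ∑ i ∈ range N, 1 / ((i : ℝ) + 1) := by
      have := le_abs_self K
      linarith
    have h9 : y ^ 2 * K ≤ y ^ 2 * (1 / 256 * ∑ i ∈ range N, 1 / ((i : ℝ) + 1)) :=
      mul_le_mul_of_nonneg_left h8 (by positivity)
    linarith

/-- `h(1) - h(1-y) = D y - E(y)` -/
lemma hx_diff {y : ℝ} (h0 : 0 ≤ y) (hy1 : y ≤ 1) : h1 - hx (1 - y) = DD * y - EE y := by
  unfold h1 hx DD EE
  rw [← tsum_mul_right, ← Summable.tsum_sub summable_pn (summable_hx (by linarith) (by linarith)),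
    ← Summable.tsum_sub (summable_pnD.mul_right y) (summable_EE h0 hy1)]
  apply tsum_congr
  intro n
  unfold ee
  push_cast
  ring

lemma hx_diff_le {y : ℝ} (h0 : 0 ≤ y) (hy1 : y ≤ 1) : h1 - hx (1 - y) ≤ DD * y := by
  rw [hx_diff h0 hy1]
  have := EE_nonneg hy1
  linarith

lemma le_hx_diff {y : ℝ} (h0 : 0 ≤ y) (hy1 : y ≤ 1) : y ≤ h1 - hx (1 - y) := by
  unfold h1 hx
  rw [← Summable.tsum_sub summable_pn (summable_hx (by linarith) (by linarith))]
  have hs : Summable (fun n => pn n - pn n * (1 - y) ^ (n + 1)) :=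
    summable_pn.sub (summable_hx (by linarith) (by linarith))
  have h2 := hs.sum_le_tsum (range 1) (fun n _ => by
    have := pow_le_one₀ (n := n + 1) (by linarith : 0 ≤ 1 - y) (by linarith : 1 - y ≤ 1)
    have h3 := pn_pos n
    nlinarith)
  simp only [Finset.sum_range_one, pn_zero] at h2
  have h4 : (1:ℝ) - 1 * (1 - y) ^ (0 + 1) = y := by ring
  rw [h4] at h2
  exact h2

lemma hx_pos {x : ℝ} (h0 : 0 < x) (hx1 : x ≤ 1) : 0 < hx x := by
  unfold hx
  have h2 := (summable_hx h0.le hx1).sum_le_tsum (range 1)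
    (fun n _ => mul_nonneg (pn_pos n).le (by positivity))
  simp only [Finset.sum_range_one, pn_zero] at h2
  have : 0 < x ^ (0 + 1) := by positivity
  linarith

lemma hx_mono {x x' : ℝ} (h0 : 0 ≤ x) (hxx : x ≤ x') (hx1 : x' ≤ 1) : hx x ≤ hx x' := by
  unfold hx
  apply Summable.tsum_le_tsum _ (summable_hx h0 (hxx.trans hx1)) (summable_hx (h0.trans hxx) hx1)
  intro n
  exact mul_le_mul_of_nonneg_left (pow_le_pow_left₀ h0 hxx _) (pn_pos n).le

end X141.RD
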