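import Mathlib

set_option autoImplicit false
set_option linter.unusedSectionVars false

namespace X141.RD

open Monoid

variable {M : Type} [Group M] [DecidableEq M]

/-- the free product of two copies of `M` -/
abbrev FP (M : Type) [Group M] : Type := CoprodI (fun _ : Bool => M)

/-- words -/
abbrev Wd (M : Type) [Group M] : Type := CoprodI.Word (fun _ : Bool => M)

/-- inclusion of the factor `i` -/
def inc (i : Bool) : M →* FP M := CoprodI.of (M := fun _ : Bool => M) (i := i)

/-- the reduced word -/
def wd (γ : FP M) : Wd M := CoprodI.Word.equiv γ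

/-- list of syllables -/
def syl (γ : FP M) : List (Σ _ : Bool, M) := (wd γ).toList

/-- index of the first syllable -/
def hd (γ : FP M) : Option Bool := (wd γ).fstIdx

lemma hd_eq (γ : FP M) : hd γ = (syl γ).head?.map Sigma.fst := rfl

lemma wd_inj : Function.Injective (wd (M := M)) := CoprodI.Word.equiv.injective

lemma syl_inj : Function.Injective (syl (M := M)) := fun _ _ h => wd_inj (CoprodI.Word.ext h)

lemma wd_inc_mul (i : Bool) (m : M) (t : FP M) : wd (inc i m * t) = inc i m • wd t := by
  change (inc i m * t) • (CoprodI.Word.empty : Wd M) = inc i m • (t • (CoprodI.Word.empty : Wd M))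
  rw [mul_smul]

lemma wd_one : wd (1 : FP M) = CoprodI.Word.empty := by
  change ((1 : FP M) • (CoprodI.Word.empty : Wd M)) = _
  rw [one_smul]

@[simp] lemma syl_one : syl (1 : FP M) = [] := by
  unfold syl; rw [wd_one]; rfl

@[simp] lemma hd_one : hd (1 : FP M) = none := by
  rw [hd_eq, syl_one]; rfl

lemma syl_mul {i : Bool} {m : M} {t : FP M} (ht : hd t ≠ some i) (hm : m ≠ 1) :
    syl (inc i m * t) = ⟨i, m⟩ :: syl t := by
  have h2 := CoprodI.Word.cons_eq_smul (M := fun _ : Bool => M) (i := i) (m := m)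
    (ls := wd t) (h1 := ht) (h2 := hm)
  unfold syl
  rw [wd_inc_mul]
  unfold inc
  rw [← h2]
  rfl

lemma hd_mul {i : Bool} {m : M} {t : FP M} (ht : hd t ≠ some i) (hm : m ≠ 1) :
    hd (inc i m * t) = some i := by
  rw [hd_eq, syl_mul ht hm]; rfl

/-- decomposition with respect to one factor -/
lemma exists_dec (i : Bool) (γ : FP M) : ∃ (h : M) (t : FP M), γ = inc i h * t ∧ hd t ≠ some i := by
  set p := CoprodI.Word.equivPair i (wd γ) with hp
  have h1 := CoprodI.Word.equivPair_head_smul_equivPair_tail (i := i) (wd γ)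
  refine ⟨p.head, CoprodI.Word.prod p.tail, ?_, ?_⟩
  · apply wd_inj
    rw [wd_inc_mul]
    have h2 : wd (CoprodI.Word.prod p.tail) = p.tail := CoprodI.Word.equiv.apply_symm_apply p.tail
    rw [h2]
    exact h1.symm
  · have h2 : wd (CoprodI.Word.prod p.tail) = p.tail := CoprodI.Word.equiv.apply_symm_apply p.tail
    unfold hd
    rw [h2]
    exact p.fstIdx_ne

/-- product of a list of syllables -/
def pr (l : List (Σ _ : Bool, M)) : FP M := (l.map (fun a => inc a.1 a.2)).prod

@[simp] lemma pr_nil : pr ([] : List (Σ _ : Bool, M)) = 1 := rfl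
@[simp] lemma pr_cons (a : Σ _ : Bool, M) (l : List (Σ _ : Bool, M)) :
    pr (a :: l) = inc a.1 a.2 * pr l := by simp [pr]

lemma pr_append (l l' : List (Σ _ : Bool, M)) : pr (l ++ l') = pr l * pr l' := by
  simp [pr]

lemma pr_syl (γ : FP M) : pr (syl γ) = γ := CoprodI.Word.equiv.symm_apply_apply γ

/-- reduced lists -/
def Red (l : List (Σ _ : Bool, M)) : Prop :=
  (∀ a ∈ l, a.2 ≠ 1) ∧ l.IsChain (fun a b => a.1 ≠ b.1)

lemma red_syl (γ : FP M) : Red (syl γ) := ⟨(wd γ).ne_one, (wd γ).chain_ne⟩

lemma syl_pr {l : List (Σ _ : Bool, M)} (hl : Red l) : syl (pr l) = l := by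
  have : wd (pr l) = ⟨l, hl.1, hl.2⟩ :=
    CoprodI.Word.equiv.apply_symm_apply (⟨l, hl.1, hl.2⟩ : Wd M)
  unfold syl
  rw [this]

lemma Red.tail {a : Σ _ : Bool, M} {l : List (Σ _ : Bool, M)} (h : Red (a :: l)) : Red l :=
  ⟨fun b hb => h.1 b (List.mem_cons_of_mem _ hb), h.2.tail⟩

lemma Red.head_ne {a : Σ _ : Bool, M} {l : List (Σ _ : Bool, M)} (h : Red (a :: l)) :
    l.head?.map Sigma.fst ≠ some a.1 := by
  cases l with
  | nil => simp
  | cons b l =>
    have h2 := h.2
    rw [List.isChain_cons_cons] at h2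
    simp only [List.head?_cons, Option.map_some]
    intro h3
    exact h2.1 (Option.some.inj h3).symm

/-- every element is `1` or starts with exactly one of the two indices -/
lemma dec_cases (γ : FP M) (h1 : γ ≠ 1) : ∃ (i : Bool) (m : M) (t : FP M),
    γ = inc i m * t ∧ hd t ≠ some i ∧ m ≠ 1 := by
  obtain ⟨h, t, e, ht⟩ := exists_dec false γ
  by_cases hh : h = 1
  · rw [hh, map_one, one_mul] at e
    obtain ⟨h', t', e', ht'⟩ := exists_dec true γ
    by_cases hh' : h' = 1
    · exfalso
      rw [hh', map_one, one_mul] at e'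
      rw [← e] at ht
      rw [← e'] at ht'
      have : hd γ = none := by
        cases hc : hd γ with
        | none => rfl
        | some b => cases b <;> simp_all
      apply h1
      apply syl_inj
      rw [syl_one]
      rw [hd_eq] at this
      cases hs : syl γ with
      | nil => rfl
      | cons a l => rw [hs] at this; simp at this
    · exact ⟨true, h', t', e', ht', hh'⟩
  · exact ⟨false, h, t, e, ht, hh⟩

end X141.RD
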