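import Pool.Agent.X141.RD.Par
import Pool.Agent.X141.RD.Free

set_option autoImplicit false
set_option linter.unusedSectionVars false
set_option linter.unusedVariables false

namespace X141.RD

open Monoid Finset

/-! ### convolution operators -/

section conv

variable {G : Type} [Group G]

/-- convolution operator -/
noncomputable def op (ν : G →₀ ℝ) (h : G → ℝ) (x : G) : ℝ := ν.sum (fun y a => a * h (y⁻¹ * x))

lemma op_add_left (ν ν' : G →₀ ℝ) (h : G → ℝ) (x : G) : op (ν + ν') h x = op ν h x + op ν' h x := by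
  unfold op
  classical
  apply Finsupp.sum_add_index'
  · intro a; simp
  · intro a b c; ring

lemma op_smul_left (c : ℝ) (ν : G →₀ ℝ) (h : G → ℝ) (x : G) : op (c • ν) h x = c * op ν h x := by
  unfold op
  rw [Finsupp.sum_smul_index' (by intro i; simp), Finsupp.mul_sum]
  apply Finsupp.sum_congr
  intro y _
  simp only [smul_eq_mul]
  ring

lemma op_map {M : Type} [Group M] (φ : M →* G) (ν : M →₀ ℝ) (h : G → ℝ) (x : G) :
    op (Finsupp.mapDomain φ ν) h x = ν.sum (fun s a => a * h ((φ s)⁻¹ * x)) := by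
  unfold op
  apply Finsupp.sum_mapDomain_index
  · intro a; simp
  · intro a b c; ring

lemma op_lin (ν : G →₀ ℝ) (c : ℝ) (h k : G → ℝ) (x : G) :
    op ν (fun y => c * h y - k y) x = c * op ν h x - op ν k x := by
  unfold op
  rw [Finsupp.mul_sum]
  simp only [Finsupp.sum]
  rw [← Finset.sum_sub_distrib]
  apply Finset.sum_congr rfl
  intro y _
  ring

lemma op_const_mul (ν : G →₀ ℝ) (c : ℝ) (h : G → ℝ) (x : G) :
    op ν (fun y => c * h y) x = c * op ν h x := by
  unfold op
  rw [Finsupp.mul_sum]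
  apply Finsupp.sum_congr
  intro y _
  ring

lemma op_mono {ν : G →₀ ℝ} (hν : ∀ x, 0 ≤ ν x) {h k : G → ℝ} (hk : ∀ x, h x ≤ k x) (x : G) :
    op ν h x ≤ op ν k x := by
  unfold op
  apply Finset.sum_le_sum
  intro y _
  exact mul_le_mul_of_nonneg_left (hk _) (hν _)

lemma iter_lin (ν : G →₀ ℝ) (n : ℕ) (c : ℝ) (h k : G → ℝ) :
    (op ν)^[n] (fun y => c * h y - k y) = fun x => c * (op ν)^[n] h x - (op ν)^[n] k x := by
  induction n with
  | zero => rfl
  | succ n ih =>
    rw [Function.iterate_succ_apply', ih]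
    funext x
    rw [op_lin, Function.iterate_succ_apply', Function.iterate_succ_apply']

lemma iter_mono {ν : G →₀ ℝ} (hν : ∀ x, 0 ≤ ν x) (n : ℕ) {h k : G → ℝ} (hk : ∀ x, h x ≤ k x)
    (x : G) : (op ν)^[n] h x ≤ (op ν)^[n] k x := by
  induction n generalizing x with
  | zero => exact hk x
  | succ n ih =>
    rw [Function.iterate_succ_apply', Function.iterate_succ_apply']
    exact op_mono hν ih x

lemma iter_nonneg {ν : G →₀ ℝ} (hν : ∀ x, 0 ≤ ν x) (n : ℕ) {h : G → ℝ} (hk : ∀ x, 0 ≤ h x)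
    (x : G) : 0 ≤ (op ν)^[n] h x := by
  induction n generalizing x with
  | zero => exact hk x
  | succ n ih =>
    rw [Function.iterate_succ_apply']
    exact Finset.sum_nonneg (fun y _ => mul_nonneg (hν _) (ih _))

end conv

/-! ### multiplicative functions on the free product -/

section multi

variable {M : Type} [Group M] [DecidableEq M]

/-- product over the syllables -/
noncomputable def FF (f : Bool → M → ℝ) (γ : FP M) : ℝ := ((syl γ).map (fun a => f a.1 a.2)).prod

lemma FF_one (f : Bool → M → ℝ) : FF f (1 : FP M) = 1 := by simp [FF]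

lemma FF_dec {f : Bool → M → ℝ} (hf : ∀ i, f i 1 = 1) {i : Bool} {m : M} {t : FP M}
    (ht : hd t ≠ some i) : FF f (inc i m * t) = f i m * FF f t := by
  by_cases hm : m = 1
  · rw [hm, map_one, one_mul, hf, one_mul]
  · unfold FF
    rw [syl_mul ht hm]
    simp

lemma list_prod_mono {α : Type} (l : List α) (f g : α → ℝ) (h0 : ∀ a, 0 ≤ f a)
    (h : ∀ a, f a ≤ g a) : 0 ≤ (l.map f).prod ∧ (l.map f).prod ≤ (l.map g).prod := by
  induction l with
  | nil => simp
  | cons a l ih =>
    simp only [List.map_cons, List.prod_cons]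
    exact ⟨mul_nonneg (h0 a) ih.1, mul_le_mul (h a) ih.2 ih.1 ((h0 a).trans (h a))⟩

lemma FF_nonneg {f : Bool → M → ℝ} (h0 : ∀ i m, 0 ≤ f i m) (γ : FP M) : 0 ≤ FF f γ :=
  (list_prod_mono (syl γ) (fun a => f a.1 a.2) (fun a => f a.1 a.2) (fun a => h0 _ _)
    (fun a => le_rfl)).1

lemma FF_mono {f g : Bool → M → ℝ} (h0 : ∀ i m, 0 ≤ f i m) (h : ∀ i m, f i m ≤ g i m)
    (γ : FP M) : FF f γ ≤ FF g γ :=
  (list_prod_mono (syl γ) (fun a => f a.1 a.2) (fun a => g a.1 a.2) (fun a => h0 _ _)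
    (fun a => h _ _)).2

lemma op_loc {f : Bool → M → ℝ} (hf : ∀ i, f i 1 = 1) (i : Bool) (ν : M →₀ ℝ) (w κ : ℝ)
    (h : ∀ m, op ν (f i) m = w * f i m - if m = 1 then κ else 0) (γ : FP M) :
    op (Finsupp.mapDomain (inc i) ν) (FF f) γ =
      w * FF f γ - if hd γ = some i then 0 else κ * FF f γ := by
  obtain ⟨m, t, e, ht⟩ := exists_dec i γ
  rw [op_map, e]
  have h1 : ν.sum (fun s a => a * FF f ((inc i s)⁻¹ * (inc i m * t))) = op ν (f i) m * FF f t := by
    unfold op
    rw [Finsupp.sum_mul]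
    apply Finsupp.sum_congr
    intro s _
    have h2 : (inc i s)⁻¹ * (inc i m * t) = inc i (s⁻¹ * m) * t := by
      rw [map_mul, map_inv, mul_assoc]
    rw [h2, FF_dec hf ht]
    ring
  rw [h1, h, FF_dec hf ht]
  by_cases hm : m = 1
  · rw [if_pos hm, hm, map_one, one_mul, if_neg ht, hf]
    ring
  · rw [if_neg hm, hd_mul ht hm, if_pos rfl]
    ring

end multi

/-! ### the `ℤ⁶` factor -/

/-- the group `ℤ⁶`, written multiplicatively -/
abbrev M6 : Type := Multiplicative (Fin 6 → ℤ)

/-- step law in one coordinate -/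
noncomputable def q1 (k : ℤ) : ℝ := if k = 0 then 1 / 2 else if k = 1 ∨ k = -1 then 1 / 4 else 0

/-- the possible steps -/
def I3 : Finset ℤ := {-1, 0, 1}

/-- the box of steps -/
def Box : Finset M6 :=
  (Fintype.piFinset (fun _ : Fin 6 => I3)).map Multiplicative.ofAdd.toEmbedding

lemma q1_nonneg (k : ℤ) : 0 ≤ q1 k := by unfold q1; split_ifs <;> norm_num

lemma mem_I3_of {k : ℤ} (h : q1 k ≠ 0) : k ∈ I3 := by
  unfold q1 at h
  unfold I3
  simp only [Finset.mem_insert, Finset.mem_singleton]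
  by_contra hc
  push Not at hc
  apply h
  rw [if_neg hc.2.1, if_neg]
  push Not
  exact ⟨hc.2.2, hc.1⟩

lemma q1_neg (k : ℤ) : q1 (-k) = q1 k := by
  unfold q1
  have h1 : (-k = 0) = (k = 0) := by simp
  have h2 : (-k = 1 ∨ -k = -1) = (k = 1 ∨ k = -1) := by
    apply propext; constructor <;> intro h <;> omega
  simp only [h1, h2]

lemma sum_q1 (φ : ℤ → ℝ) : ∑ c ∈ I3, q1 c * φ c = 1 / 2 * φ 0 + 1 / 4 * φ 1 + 1 / 4 * φ (-1) := by
  unfold I3
  rw [Finset.sum_insert (by decide), Finset.sum_insert (by decide), Finset.sum_singleton]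
  unfold q1
  norm_num
  ring

/-- the lazy walk on `ℤ⁶` -/
noncomputable def nu1 : M6 →₀ ℝ :=
  Finsupp.onFinset Box (fun s => ∏ i, q1 (Multiplicative.toAdd s i)) (by
    intro s hs
    unfold Box
    rw [Finset.mem_map_equiv, Fintype.mem_piFinset]
    intro i
    apply mem_I3_of
    intro h
    apply hs
    exact Finset.prod_eq_zero (Finset.mem_univ i) h)

lemma nu1_apply (s : M6) : nu1 s = ∏ i, q1 (Multiplicative.toAdd s i) := rfl

lemma nu1_nonneg (s : M6) : 0 ≤ nu1 s := by
  rw [nu1_apply]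
  exact Finset.prod_nonneg (fun i _ => q1_nonneg _)

lemma nu1_inv (s : M6) : nu1 s⁻¹ = nu1 s := by
  rw [nu1_apply, nu1_apply]
  apply Finset.prod_congr rfl
  intro i _
  exact q1_neg _

lemma nu1_sum (φ : M6 → ℝ) : nu1.sum (fun s a => a * φ s) =
    ∑ c ∈ Fintype.piFinset (fun _ : Fin 6 => I3), (∏ i, q1 (c i)) * φ (Multiplicative.ofAdd c) := by
  unfold nu1
  rw [Finsupp.onFinset_sum _ (by intro a; simp)]
  unfold Box
  rw [Finset.sum_map]
  rfl

lemma nu1_prod (ψ : Fin 6 → ℤ → ℝ) : nu1.sum (fun s a => a * ∏ i, ψ i (Multiplicative.toAdd s i)) =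
    ∏ i, (1 / 2 * ψ i 0 + 1 / 4 * ψ i 1 + 1 / 4 * ψ i (-1)) := by
  rw [nu1_sum]
  have : ∀ i, (1 / 2 * ψ i 0 + 1 / 4 * ψ i 1 + 1 / 4 * ψ i (-1)) = ∑ c ∈ I3, q1 c * ψ i c :=
    fun i => (sum_q1 (ψ i)).symm
  simp_rw [this]
  rw [Finset.prod_univ_sum]
  apply Finset.sum_congr rfl
  intro c _
  rw [Finset.prod_mul_distrib]
  rfl

lemma nu1_mass : nu1.sum (fun _ a => a) = 1 := by
  have h := nu1_prod (fun _ _ => 1)
  simp only [Finset.prod_const_one, mul_one] at h
  rw [h]
  norm_num

/-- law of the lazy walk on `ℤ⁶` -/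
noncomputable def BB (n : ℕ) (u : M6) : ℝ := ∏ i, bz n (Multiplicative.toAdd u i)

lemma BB_nonneg (n : ℕ) (u : M6) : 0 ≤ BB n u := Finset.prod_nonneg (fun i _ => bz_nonneg _ _)

lemma BB_le (n : ℕ) (u : M6) : BB n u ≤ pn n := by
  unfold BB pn an
  calc ∏ i, bz n (Multiplicative.toAdd u i) ≤ ∏ _i : Fin 6, bz n 0 :=
        Finset.prod_le_prod (fun i _ => bz_nonneg _ _) (fun i _ => bz_le _ _)
    _ = _ := by simp

lemma BB_one (n : ℕ) : BB n 1 = pn n := by
  unfold BB pn an
  simp

lemma BB_zero (u : M6) : BB 0 u = if u = 1 then 1 else 0 := by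
  unfold BB
  by_cases h : u = 1
  · rw [if_pos h, h]
    simp [bz_zero]
  · rw [if_neg h]
    have : ∃ i, Multiplicative.toAdd u i ≠ 0 := by
      by_contra hc
      push Not at hc
      apply h
      have : Multiplicative.toAdd u = 0 := funext hc
      exact this
    obtain ⟨i, hi⟩ := this
    apply Finset.prod_eq_zero (Finset.mem_univ i)
    rw [bz_zero, if_neg hi]

lemma op_BB (n : ℕ) (u : M6) : op nu1 (BB n) u = BB (n + 1) u := by
  unfold op
  have h := nu1_prod (fun i k => bz n (Multiplicative.toAdd u i - k))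
  have h2 : nu1.sum (fun y a => a * BB n (y⁻¹ * u)) =
      nu1.sum (fun s a => a * ∏ i, bz n (Multiplicative.toAdd u i - Multiplicative.toAdd s i)) := by
    apply Finsupp.sum_congr
    intro y _
    congr 1
    unfold BB
    apply Finset.prod_congr rfl
    intro i _
    congr 1
    simp only [toAdd_mul, toAdd_inv, Pi.add_apply, Pi.neg_apply]
    ring
  rw [h2, h]
  unfold BB
  apply Finset.prod_congr rfl
  intro i _
  rw [bz_succ]
  simp only [sub_zero, sub_neg_eq_add]

/-- the resolvent on `ℤ⁶` (times `x`) -/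
noncomputable def RR (x : ℝ) (u : M6) : ℝ := ∑' n, x ^ (n + 1) * BB n u

lemma summable_RR {x : ℝ} (h0 : 0 ≤ x) (hx1 : x ≤ 1) (u : M6) :
    Summable (fun n => x ^ (n + 1) * BB n u) := by
  apply Summable.of_nonneg_of_le (fun n => ?_) (fun n => ?_) (summable_hx h0 hx1)
  · exact mul_nonneg (by positivity) (BB_nonneg _ _)
  · rw [mul_comm]
    exact mul_le_mul_of_nonneg_right (BB_le n u) (by positivity)

lemma RR_nonneg {x : ℝ} (h0 : 0 ≤ x) (u : M6) : 0 ≤ RR x u :=
  tsum_nonneg (fun n => mul_nonneg (by positivity) (BB_nonneg _ _))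

lemma RR_one (x : ℝ) : RR x 1 = hx x := by
  unfold RR hx
  apply tsum_congr
  intro n
  rw [BB_one, mul_comm]

lemma RR_le {x : ℝ} (h0 : 0 ≤ x) (hx1 : x ≤ 1) (u : M6) : RR x u ≤ hx x := by
  unfold RR hx
  apply Summable.tsum_le_tsum _ (summable_RR h0 hx1 u) (summable_hx h0 hx1)
  intro n
  rw [mul_comm]
  exact mul_le_mul_of_nonneg_right (BB_le n u) (by positivity)

lemma op_RR {x : ℝ} (h0 : 0 < x) (hx1 : x ≤ 1) (u : M6) :
    op nu1 (RR x) u = 1 / x * RR x u - if u = 1 then 1 else 0 := by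
  have h1 : op nu1 (RR x) u = ∑' n, x ^ (n + 1) * BB (n + 1) u := by
    unfold op Finsupp.sum
    have h2 : ∀ y ∈ nu1.support, nu1 y * RR x (y⁻¹ * u) =
        ∑' n, nu1 y * (x ^ (n + 1) * BB n (y⁻¹ * u)) := by
      intro y _
      unfold RR
      rw [tsum_mul_left]
    rw [Finset.sum_congr rfl h2, ← Summable.tsum_finsetSum]
    · apply tsum_congr
      intro n
      rw [← op_BB]
      unfold op Finsupp.sum
      rw [Finset.mul_sum]
      apply Finset.sum_congr rfl
      intro y _
      ring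
    · intro y _
      exact (summable_RR h0.le hx1 _).mul_left _
  have h2 : RR x u = x * BB 0 u + x * ∑' n, x ^ (n + 1) * BB (n + 1) u := by
    unfold RR
    rw [(summable_RR h0.le hx1 u).tsum_eq_zero_add]
    simp only [zero_add, pow_one]
    congr 1
    rw [← tsum_mul_left]
    apply tsum_congr
    intro n
    ring
  rw [h1, h2, BB_zero]
  field_simp
  ring

/-- normalised resolvent -/
noncomputable def f0 (x : ℝ) (u : M6) : ℝ := 1 / hx x * RR x u

lemma f0_one {x : ℝ} (h0 : 0 < x) (hx1 : x ≤ 1) : f0 x 1 = 1 := by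
  unfold f0
  rw [RR_one]
  have := hx_pos h0 hx1
  field_simp

lemma f0_nonneg {x : ℝ} (h0 : 0 < x) (hx1 : x ≤ 1) (u : M6) : 0 ≤ f0 x u := by
  unfold f0
  have := hx_pos h0 hx1
  exact mul_nonneg (by positivity) (RR_nonneg h0.le u)

lemma f0_le_one {x : ℝ} (h0 : 0 < x) (hx1 : x ≤ 1) (u : M6) : f0 x u ≤ 1 := by
  unfold f0
  have := hx_pos h0 hx1
  rw [one_div, inv_mul_le_iff₀ this, mul_one]
  exact RR_le h0.le hx1 u

lemma op_f0 {x : ℝ} (h0 : 0 < x) (hx1 : x ≤ 1) (u : M6) :
    op nu1 (f0 x) u = 1 / x * f0 x u - if u = 1 then 1 / hx x else 0 := by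
  have : f0 x = fun u => 1 / hx x * RR x u := rfl
  rw [this, op_const_mul, op_RR h0 hx1]
  simp only
  split_ifs <;> ring

/-- `f0` is monotone in `x` -/
lemma f0_mono {x x' : ℝ} (h0 : 0 < x) (hxx : x ≤ x') (hx1 : x' < 1) (u : M6) : f0 x u ≤ f0 x' u := by
  have h0' : 0 < x' := h0.trans_le hxx
  have hx1' : x ≤ 1 := hxx.trans hx1.le
  have key : ∀ n : ℕ, ∀ u, - x' ^ n ≤ f0 x' u - f0 x u := by
    intro n
    induction n with
    | zero =>
      intro u
      have h2 := f0_nonneg h0' hx1.le u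
      have h3 := f0_le_one h0 hx1' u
      simp only [pow_zero]
      linarith
    | succ n ih =>
      intro u
      by_cases hu : u = 1
      · rw [hu, f0_one h0 hx1', f0_one h0' hx1.le]
        have : 0 < x' ^ (n + 1) := by positivity
        linarith
      · have e1 := op_f0 h0 hx1' u
        have e2 := op_f0 h0' hx1.le u
        rw [if_neg hu, sub_zero] at e1 e2
        have e3 : f0 x u = x * op nu1 (f0 x) u := by rw [e1]; field_simp
        have e4 : f0 x' u = x' * op nu1 (f0 x') u := by rw [e2]; field_simp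
        have h5 : 0 ≤ op nu1 (f0 x) u :=
          iter_nonneg nu1_nonneg 1 (fun u => f0_nonneg h0 hx1' u) u
        have h6 : x * op nu1 (f0 x) u ≤ x' * op nu1 (f0 x) u := mul_le_mul_of_nonneg_right hxx h5
        have h7 : - x' ^ n ≤ op nu1 (f0 x') u - op nu1 (f0 x) u := by
          unfold op Finsupp.sum
          rw [← Finset.sum_sub_distrib]
          have h8 : - x' ^ n = ∑ y ∈ nu1.support, nu1 y * (- x' ^ n) := by
            rw [← Finset.sum_mul]
            have := nu1_mass
            unfold Finsupp.sum at this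
            rw [this, one_mul]
          rw [h8]
          apply Finset.sum_le_sum
          intro y _
          rw [← mul_sub]
          exact mul_le_mul_of_nonneg_left (ih _) (nu1_nonneg y)
        have h8 := mul_le_mul_of_nonneg_left h7 h0'.le
        rw [e3, e4, pow_succ]
        linarith
  have hlim : Filter.Tendsto (fun n : ℕ => - x' ^ n) Filter.atTop (nhds (-0)) :=
    (tendsto_pow_atTop_nhds_zero_of_lt_one h0'.le hx1).neg
  have h4 := le_of_tendsto' hlim (fun n : ℕ => key n u)
  linarith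

/-! ### the `ℤ` factor -/

/-- a generator of the first axis -/
def e0 : M6 := Multiplicative.ofAdd (Pi.single 0 1)

/-- simple random walk on the first axis -/
noncomputable def nu2 : M6 →₀ ℝ := Finsupp.single e0 (1 / 2) + Finsupp.single e0⁻¹ (1 / 2)

lemma nu2_sum (φ : M6 → ℝ) : nu2.sum (fun s a => a * φ s) = 1 / 2 * φ e0 + 1 / 2 * φ e0⁻¹ := by
  unfold nu2
  classical
  rw [Finsupp.sum_add_index' (by intro a; simp) (by intro a b c; ring),
    Finsupp.sum_single_index (by simp), Finsupp.sum_single_index (by simp)]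

lemma nu2_nonneg (s : M6) : 0 ≤ nu2 s := by
  unfold nu2
  rw [Finsupp.add_apply, Finsupp.single_apply, Finsupp.single_apply]
  split_ifs <;> norm_num

lemma nu2_inv (s : M6) : nu2 s⁻¹ = nu2 s := by
  unfold nu2
  rw [Finsupp.add_apply, Finsupp.add_apply, Finsupp.single_apply, Finsupp.single_apply,
    Finsupp.single_apply, Finsupp.single_apply]
  have h1 : (e0 = s⁻¹) = (e0⁻¹ = s) := by
    apply propext; constructor
    · intro h; rw [h, inv_inv]
    · intro h; rw [← h, inv_inv]
  have h2 : (e0⁻¹ = s⁻¹) = (e0 = s) := by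
    apply propext; exact inv_inj
  simp only [h1, h2]
  ring

lemma nu2_mass : nu2.sum (fun _ a => a) = 1 := by
  have h := nu2_sum (fun _ => 1)
  simp only [mul_one] at h
  rw [h]; norm_num

open Classical in
/-- the Green kernel ratio on the axis -/
noncomputable def f1 (z : ℝ) (u : M6) : ℝ :=
  if ∀ i, i ≠ 0 → Multiplicative.toAdd u i = 0 then z ^ (Multiplicative.toAdd u 0).natAbs else 0

lemma f1_one (z : ℝ) : f1 z 1 = 1 := by
  unfold f1
  simp

lemma f1_nonneg {z : ℝ} (hz : 0 ≤ z) (u : M6) : 0 ≤ f1 z u := by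
  unfold f1; split_ifs <;> positivity

lemma f1_mono {z z' : ℝ} (hz : 0 ≤ z) (hzz : z ≤ z') (u : M6) : f1 z u ≤ f1 z' u := by
  unfold f1
  split_ifs
  · exact pow_le_pow_left₀ hz hzz _
  · exact le_rfl

lemma op_f1 {z : ℝ} (hz : 0 < z) (u : M6) :
    op nu2 (f1 z) u = (z + 1 / z) / 2 * f1 z u - if u = 1 then (1 / z - z) / 2 else 0 := by
  unfold op
  rw [nu2_sum (fun s => f1 z (s⁻¹ * u)), inv_inv]
  unfold f1
  have c1 : (∀ i, i ≠ 0 → Multiplicative.toAdd (e0⁻¹ * u) i = 0) ↔
      (∀ i, i ≠ 0 → Multiplicative.toAdd u i = 0) := by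
    constructor <;> intro h i hi <;> have := h i hi <;>
      simpa [e0, Pi.single_eq_of_ne hi] using this
  have c2 : (∀ i, i ≠ 0 → Multiplicative.toAdd (e0 * u) i = 0) ↔
      (∀ i, i ≠ 0 → Multiplicative.toAdd u i = 0) := by
    constructor <;> intro h i hi <;> have := h i hi <;>
      simpa [e0, Pi.single_eq_of_ne hi] using this
  have v1 : Multiplicative.toAdd (e0⁻¹ * u) 0 = Multiplicative.toAdd u 0 - 1 := by
    simp [e0]; ring
  have v2 : Multiplicative.toAdd (e0 * u) 0 = Multiplicative.toAdd u 0 + 1 := by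
    simp [e0]; ring
  simp only [c1, c2, v1, v2]
  by_cases h : ∀ i, i ≠ 0 → Multiplicative.toAdd u i = 0
  · simp only [if_pos h]
    set k := Multiplicative.toAdd u 0 with hk
    by_cases hu : u = 1
    · have hk0 : k = 0 := by rw [hk, hu]; rfl
      rw [if_pos hu, hk0]
      norm_num
      field_simp
      ring
    · rw [if_neg hu, sub_zero]
      have hk0 : k ≠ 0 := by
        intro hk0
        apply hu
        have : Multiplicative.toAdd u = 0 := by
          funext i
          by_cases hi : i = 0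
          · rw [hi]; exact hk0
          · exact h i hi
        exact this
      rcases lt_or_gt_of_ne hk0 with hk1 | hk1
      · obtain ⟨j, hj⟩ : ∃ j : ℕ, k.natAbs = j + 1 := ⟨k.natAbs - 1, by omega⟩
        have h1 : (k - 1).natAbs = j + 2 := by omega
        have h2 : (k + 1).natAbs = j := by omega
        rw [h1, h2, hj]
        field_simp
        ring
      · obtain ⟨j, hj⟩ : ∃ j : ℕ, k.natAbs = j + 1 := ⟨k.natAbs - 1, by omega⟩
        have h1 : (k - 1).natAbs = j := by omega
        have h2 : (k + 1).natAbs = j + 2 := by omega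
        rw [h1, h2, hj]
        field_simp
        ring
  · simp only [if_neg h]
    have hu : u ≠ 1 := by
      intro hu
      apply h
      intro i _
      rw [hu]; rfl
    rw [if_neg hu]
    ring

end X141.RD
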