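import Pool.Agent.X141.RD.Green

set_option autoImplicit false
set_option linter.unusedSectionVars false
set_option linter.unusedVariables false

namespace X141.RD

open Monoid Finset Filter

/-- the step law on the free product -/
noncomputable def nu : FP M6 →₀ ℝ :=
  al • Finsupp.mapDomain (inc false) nu1 + be • Finsupp.mapDomain (inc true) nu2

lemma inc_inj (i : Bool) : Function.Injective (inc (M := M6) i) := CoprodI.of_injective i

lemma map_nonneg (i : Bool) {ν : M6 →₀ ℝ} (h : ∀ s, 0 ≤ ν s) (x : FP M6) :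
    0 ≤ Finsupp.mapDomain (inc i) ν x := by
  by_cases hx : x ∈ Set.range (inc (M := M6) i)
  · obtain ⟨m, rfl⟩ := hx
    rw [Finsupp.mapDomain_apply (inc_inj i)]
    exact h m
  · rw [Finsupp.mapDomain_of_notMem_range _ _ hx]

lemma map_inv (i : Bool) {ν : M6 →₀ ℝ} (h : ∀ s, ν s⁻¹ = ν s) (x : FP M6) :
    Finsupp.mapDomain (inc i) ν x⁻¹ = Finsupp.mapDomain (inc i) ν x := by
  by_cases hx : x ∈ Set.range (inc (M := M6) i)
  · obtain ⟨m, rfl⟩ := hx
    rw [← _root_.map_inv, Finsupp.mapDomain_apply (inc_inj i), Finsupp.mapDomain_apply (inc_inj i), h]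
  · rw [Finsupp.mapDomain_of_notMem_range _ _ hx, Finsupp.mapDomain_of_notMem_range]
    intro h2
    obtain ⟨m, hm⟩ := h2
    apply hx
    exact ⟨m⁻¹, by rw [_root_.map_inv, hm, inv_inv]⟩

lemma nu_nonneg (x : FP M6) : 0 ≤ nu x := by
  unfold nu
  have h1 := map_nonneg false nu1_nonneg x
  have h2 := map_nonneg true nu2_nonneg x
  have h3 := al_pos
  have h4 := be_pos
  simp only [Finsupp.add_apply, Finsupp.smul_apply, smul_eq_mul]
  positivity

lemma nu_inv (x : FP M6) : nu x⁻¹ = nu x := by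
  unfold nu
  simp only [Finsupp.add_apply, Finsupp.smul_apply, smul_eq_mul]
  rw [map_inv false nu1_inv, map_inv true nu2_inv]

lemma op_nu (h : FP M6 → ℝ) (x : FP M6) : op nu h x =
    al * op (Finsupp.mapDomain (inc false) nu1) h x + be * op (Finsupp.mapDomain (inc true) nu2) h x := by
  unfold nu
  rw [op_add_left, op_smul_left, op_smul_left]

lemma sum_eq_op (ν : FP M6 →₀ ℝ) : ν.sum (fun _ a => a) = op ν (fun _ => 1) 1 := by
  unfold op
  simp

lemma nu_mass : nu.sum (fun _ a => a) = 1 := by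
  rw [sum_eq_op, op_nu, op_map, op_map]
  simp only [mul_one]
  rw [nu1_mass, nu2_mass, mul_one, mul_one, al_add_be]

/-- the two factor functions -/
noncomputable def ff (x : ℝ) (i : Bool) : M6 → ℝ := if i then f1 (zf (hx x)) else f0 x

lemma ff_one {x : ℝ} (h0 : 0 < x) (hx1 : x ≤ 1) (i : Bool) : ff x i 1 = 1 := by
  unfold ff
  cases i
  · simpa using f0_one h0 hx1
  · simpa using f1_one _

lemma ff_nonneg {x : ℝ} (h0 : 0 < x) (hx1 : x ≤ 1) (i : Bool) (m : M6) : 0 ≤ ff x i m := by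
  unfold ff
  cases i
  · simpa using f0_nonneg h0 hx1 m
  · simpa using f1_nonneg (zf_pos (hx_pos h0 hx1)).le m

lemma ff_mono {x x' : ℝ} (h0 : 0 < x) (hxx : x ≤ x') (hx1 : x' < 1) (i : Bool) (m : M6) :
    ff x i m ≤ ff x' i m := by
  have h1 : 0 < hx x := hx_pos h0 (hxx.trans hx1.le)
  unfold ff
  cases i
  · simpa using f0_mono h0 hxx hx1 m
  · simpa using f1_mono (zf_pos h1).le (zf_mono h1 (hx_mono h0.le hxx hx1.le)) m

/-- the Green kernel -/
noncomputable def KK (x : ℝ) (γ : FP M6) : ℝ := hx x / al * FF (ff x) γ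

lemma KK_one (x : ℝ) : KK x 1 = hx x / al := by unfold KK; rw [FF_one, mul_one]

lemma KK_nonneg {x : ℝ} (h0 : 0 < x) (hx1 : x ≤ 1) (γ : FP M6) : 0 ≤ KK x γ := by
  unfold KK
  have := hx_pos h0 hx1
  have := al_pos
  exact mul_nonneg (by positivity) (FF_nonneg (ff_nonneg h0 hx1) γ)

lemma KK_mono {x x' : ℝ} (h0 : 0 < x) (hxx : x ≤ x') (hx1 : x' < 1) (γ : FP M6) :
    KK x γ ≤ KK x' γ := by
  unfold KK
  have ha := al_pos
  have h1 := hx_pos h0 (hxx.trans hx1.le)
  have h2 := hx_mono h0.le hxx hx1.le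
  apply mul_le_mul _ (FF_mono (ff_nonneg h0 (hxx.trans hx1.le)) (ff_mono h0 hxx hx1) γ)
    (FF_nonneg (ff_nonneg h0 (hxx.trans hx1.le)) γ)
  · exact div_nonneg (h1.le.trans h2) ha.le
  · exact div_le_div_of_nonneg_right h2 ha.le

open Classical in
/-- the resolvent equation -/
lemma op_KK {x : ℝ} (h0 : 0 < x) (hx1 : x ≤ 1) (γ : FP M6) :
    op nu (KK x) γ = lam x * KK x γ - if γ = 1 then 1 else 0 := by
  have ha := al_pos
  have hb := be_pos
  have hh := hx_pos h0 hx1
  have hz := zf_pos hh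
  have hze := zf_eq hh
  set h := hx x with hhdef
  set z := zf h with hzdef
  have e : KK x = fun γ => h / al * FF (ff x) γ := rfl
  have k0 := op_loc (f := ff x) (ff_one h0 hx1) false nu1 (1 / x) (1 / h)
    (fun m => by simpa [ff] using op_f0 h0 hx1 m) γ
  have k1 := op_loc (f := ff x) (ff_one h0 hx1) true nu2 ((z + 1 / z) / 2) ((1 / z - z) / 2)
    (fun m => by simpa [ff] using op_f1 hz m) γ
  have h3 : al / h = be * ((1 / z - z) / 2) := by
    field_simp
    nlinarith
  have h4 : lam x = al / x + be * z := rfl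
  rw [e, op_const_mul, op_nu, k0, k1, h4]
  by_cases hγ : γ = 1
  · rw [hγ, hd_one, FF_one]
    simp only [reduceCtorEq, if_false, if_true, mul_one, FF_one]
    have h5 : be * ((z + 1 / z) / 2 - (1 / z - z) / 2) = be * z := by ring
    have h6 : h / al * (al * (1 / x - 1 / h) + be * ((z + 1 / z) / 2 - (1 / z - z) / 2)) =
        (al / x + be * z) * (h / al) - 1 := by
      rw [h5]; field_simp; ring
    exact h6
  · rw [if_neg hγ]
    obtain ⟨i, m, t, e2, ht, hm⟩ := dec_cases γ hγ
    have h5 : hd γ = some i := by rw [e2]; exact hd_mul ht hm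
    rw [h5]
    cases i
    · simp only [if_true, Option.some.injEq, Bool.false_eq_true, if_false]
      have h6 : al * (1 / x) + be * ((z + 1 / z) / 2) - be * ((1 / z - z) / 2) = al / x + be * z := by
        ring
      calc h / al * (al * (1 / x * FF (ff x) γ - 0) +
            be * ((z + 1 / z) / 2 * FF (ff x) γ - (1 / z - z) / 2 * FF (ff x) γ))
          = (al * (1 / x) + be * ((z + 1 / z) / 2) - be * ((1 / z - z) / 2)) *
              (h / al * FF (ff x) γ) := by ring
        _ = _ := by rw [h6]; ring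
    · simp only [if_true, Option.some.injEq, Bool.true_eq_false, if_false]
      have h6 : al * (1 / x) - al / h + be * ((z + 1 / z) / 2) = al / x + be * z := by
        rw [h3]; ring
      calc h / al * (al * (1 / x * FF (ff x) γ - 1 / h * FF (ff x) γ) +
            be * ((z + 1 / z) / 2 * FF (ff x) γ - 0))
          = (al * (1 / x) - al / h + be * ((z + 1 / z) / 2)) *
              (h / al * FF (ff x) γ) := by ring
        _ = _ := by rw [h6]; ring

/-- the Dirac mass -/
noncomputable def dl : FP M6 → ℝ := Set.indicator ({1} : Set (FP M6)) (fun _ => (1 : ℝ))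

/-- return probabilities -/
noncomputable def mm (n : ℕ) : ℝ := (op nu)^[n] dl 1

lemma dl_nonneg (x : FP M6) : 0 ≤ dl x := by
  unfold dl; exact Set.indicator_nonneg (fun _ _ => zero_le_one) _

lemma mm_nonneg (n : ℕ) : 0 ≤ mm n := iter_nonneg nu_nonneg n dl_nonneg 1

lemma dl_eq (γ : FP M6) [Decidable (γ = 1)] : dl γ = if γ = 1 then 1 else 0 := by
  unfold dl
  rw [Set.indicator_apply]
  by_cases h : γ = 1 <;> simp [h]

/-- iterates of the kernel -/
noncomputable def aa (x : ℝ) (n : ℕ) : ℝ := (op nu)^[n] (KK x) 1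

lemma aa_zero (x : ℝ) : aa x 0 = hx x / al := KK_one x

lemma aa_nonneg {x : ℝ} (h0 : 0 < x) (hx1 : x ≤ 1) (n : ℕ) : 0 ≤ aa x n :=
  iter_nonneg nu_nonneg n (KK_nonneg h0 hx1) 1

lemma aa_succ {x : ℝ} (h0 : 0 < x) (hx1 : x ≤ 1) (n : ℕ) : aa x (n + 1) = lam x * aa x n - mm n := by
  unfold aa mm
  rw [Function.iterate_succ_apply]
  have : op nu (KK x) = fun γ => lam x * KK x γ - dl γ := by
    classical
    funext γ
    rw [op_KK h0 hx1, dl_eq]
  rw [this, iter_lin]

lemma aa_mono {x x' : ℝ} (h0 : 0 < x) (hxx : x ≤ x') (hx1 : x' < 1) (n : ℕ) : aa x n ≤ aa x' n :=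
  iter_mono nu_nonneg n (KK_mono h0 hxx hx1) 1

lemma aa_le {x : ℝ} (h0 : 0 < x) (hx1 : x ≤ 1) (n : ℕ) : aa x n ≤ lam x ^ n * (hx x / al) := by
  have hl := lam_pos h0 hx1
  induction n with
  | zero => rw [aa_zero]; simp
  | succ n ih =>
    rw [aa_succ h0 hx1, pow_succ]
    have := mm_nonneg n
    have h2 := mul_le_mul_of_nonneg_left ih hl.le
    nlinarith

lemma partial_sum {x : ℝ} (h0 : 0 < x) (hx1 : x ≤ 1) (N : ℕ) :
    ∑ n ∈ range N, mm n / lam x ^ (n + 1) = hx x / al - aa x N / lam x ^ N := by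
  have hl := lam_pos h0 hx1
  induction N with
  | zero => simp [aa_zero]
  | succ N ih =>
    rw [Finset.sum_range_succ, ih, aa_succ h0 hx1, pow_succ]
    field_simp
    ring

lemma hasSum_of_lt {x x' : ℝ} (h0 : 0 < x) (hxx : x ≤ x') (hx1 : x' < 1) (hl : lam x' < lam x) :
    HasSum (fun n => mm n / lam x ^ (n + 1)) (hx x / al) := by
  have h0' : 0 < x' := h0.trans_le hxx
  have hlx := lam_pos h0 (hxx.trans hx1.le)
  have hlx' := lam_pos h0' hx1.le
  rw [hasSum_iff_tendsto_nat_of_nonneg (fun n => div_nonneg (mm_nonneg n) (by positivity))]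
  have h2 : ∀ N, ∑ n ∈ range N, mm n / lam x ^ (n + 1) = hx x / al - aa x N / lam x ^ N :=
    fun N => partial_sum h0 (hxx.trans hx1.le) N
  simp_rw [h2]
  have h3 : Tendsto (fun N => aa x N / lam x ^ N) atTop (nhds 0) := by
    have h4 : Tendsto (fun N : ℕ => (lam x' / lam x) ^ N * (hx x' / al)) atTop (nhds (0 * (hx x' / al))) := by
      apply Tendsto.mul_const
      apply tendsto_pow_atTop_nhds_zero_of_lt_one (by positivity)
      rw [div_lt_one hlx]; exact hl
    rw [zero_mul] at h4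
    apply squeeze_zero _ _ h4
    · intro N
      exact div_nonneg (aa_nonneg h0 (hxx.trans hx1.le) N) (by positivity)
    · intro N
      have h5 := (aa_mono h0 hxx hx1 N).trans (aa_le h0' hx1.le N)
      rw [div_pow, div_mul_eq_mul_div]
      exact div_le_div_of_nonneg_right h5 (by positivity)
  have h5 := (tendsto_const_nhds (x := hx x / al)).sub h3
  rwa [sub_zero] at h5

/-- threshold below which everything works -/
lemma exists_y0 : ∃ y0, 0 < y0 ∧ y0 ≤ 1 / 2 ∧ ∀ y, 0 < y → y ≤ y0 → 0 < eps y ∧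
    HasSum (fun n => mm n / lam (1 - y) ^ (n + 1)) (hx (1 - y) / al) := by
  obtain ⟨y0, h0, h1', h2⟩ := eps_ge 1
  refine ⟨y0, h0, h1', ?_⟩
  intro y hy hyy
  have h3 : 0 < eps y := lt_of_lt_of_le (by positivity) (h2 y hy hyy)
  refine ⟨h3, ?_⟩
  have h4 : ∀ᶠ y' in nhdsWithin (0:ℝ) (Set.Ioi 0), eps y' < eps y :=
    eps_tendsto.eventually (gt_mem_nhds h3)
  have h5 : ∀ᶠ y' in nhdsWithin (0:ℝ) (Set.Ioi 0), y' ∈ Set.Ioc 0 y := Ioc_mem_nhdsGT hy
  obtain ⟨y', h6, h7⟩ := (h4.and h5).exists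
  apply hasSum_of_lt (x' := 1 - y') (by linarith) (by linarith [h7.2]) (by linarith [h7.1])
  unfold eps at h6
  linarith

lemma hx_tendsto : Tendsto (fun y => hx (1 - y)) (nhdsWithin 0 (Set.Ioi 0)) (nhds h1) := by
  have h2 : Tendsto (fun y : ℝ => h1 - DD * y) (nhdsWithin 0 (Set.Ioi 0)) (nhds h1) := by
    have : ContinuousAt (fun y : ℝ => h1 - DD * y) 0 := by fun_prop
    have h3 := this.tendsto
    rw [mul_zero, sub_zero] at h3
    exact h3.mono_left nhdsWithin_le_nhds
  apply tendsto_of_tendsto_of_tendsto_of_le_of_le' h2 tendsto_const_nhds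
  · filter_upwards [Ioc_mem_nhdsGT (show (0:ℝ) < 1 by norm_num)] with y hy
    have := hx_diff_le hy.1.le hy.2
    linarith
  · filter_upwards [Ioc_mem_nhdsGT (show (0:ℝ) < 1 by norm_num)] with y hy
    have := le_hx_diff hy.1.le hy.2
    linarith [hy.1]

lemma lam_tendsto : Tendsto (fun y => lam (1 - y)) (nhdsWithin 0 (Set.Ioi 0)) (nhds (lam 1)) := by
  have h := eps_tendsto.add_const (lam 1)
  rw [zero_add] at h
  refine h.congr ?_
  intro y
  unfold eps
  ring

lemma hasSum_one : HasSum (fun n => mm n / lam 1 ^ (n + 1)) (h1 / al) := by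
  obtain ⟨y0, h0, h1', h2⟩ := exists_y0
  have hl1 : 0 < lam 1 := lam_pos one_pos le_rfl
  have ha := al_pos
  have hnn : ∀ n, 0 ≤ mm n / lam 1 ^ (n + 1) := fun n => div_nonneg (mm_nonneg n) (by positivity)
  -- partial sums bounded
  have hps : ∀ N, ∑ n ∈ range N, mm n / lam 1 ^ (n + 1) ≤ h1 / al := by
    intro N
    have h3 : Tendsto (fun y => ∑ n ∈ range N, mm n / lam (1 - y) ^ (n + 1))
        (nhdsWithin 0 (Set.Ioi 0)) (nhds (∑ n ∈ range N, mm n / lam 1 ^ (n + 1))) := by
      apply tendsto_finsetSum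
      intro n _
      apply Tendsto.div tendsto_const_nhds (lam_tendsto.pow (n + 1))
      positivity
    have h4 : Tendsto (fun y => hx (1 - y) / al) (nhdsWithin 0 (Set.Ioi 0)) (nhds (h1 / al)) :=
      hx_tendsto.div_const _
    apply le_of_tendsto_of_tendsto h3 h4
    filter_upwards [Ioc_mem_nhdsGT h0] with y hy
    have h5 := (h2 y hy.1 hy.2).2
    have h6 := h5.summable.sum_le_tsum (range N) (fun n _ => div_nonneg (mm_nonneg n) (by
      have := lam_pos (x := 1 - y) (by linarith [hy.2]) (by linarith [hy.1])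
      positivity))
    rw [h5.tsum_eq] at h6
    exact h6
  have hs : Summable (fun n => mm n / lam 1 ^ (n + 1)) := summable_of_sum_range_le hnn hps
  have hle : ∑' n, mm n / lam 1 ^ (n + 1) ≤ h1 / al := hs.tsum_le_of_sum_range_le hps
  have hge : h1 / al ≤ ∑' n, mm n / lam 1 ^ (n + 1) := by
    have h4 : Tendsto (fun y => hx (1 - y) / al) (nhdsWithin 0 (Set.Ioi 0)) (nhds (h1 / al)) :=
      hx_tendsto.div_const _
    apply le_of_tendsto h4
    filter_upwards [Ioc_mem_nhdsGT h0] with y hy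
    obtain ⟨h5, h6⟩ := h2 y hy.1 hy.2
    rw [← h6.tsum_eq]
    apply Summable.tsum_le_tsum _ h6.summable hs
    intro n
    apply div_le_div_of_nonneg_left (mm_nonneg n) (by positivity)
    apply pow_le_pow_left₀ hl1.le
    unfold eps at h5
    linarith
  have := hs.hasSum
  rwa [le_antisymm hle hge] at this

/-- laziness at the identity -/
lemma exists_lazy : ∃ c, 0 < c ∧ ∀ n, c * mm n ≤ mm (n + 1) := by
  refine ⟨nu 1, ?_, ?_⟩
  · unfold nu
    simp only [Finsupp.add_apply, Finsupp.smul_apply, smul_eq_mul]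
    have h1 : Finsupp.mapDomain (inc false) nu1 (1 : FP M6) = nu1 1 := by
      rw [← map_one (inc (M := M6) false), Finsupp.mapDomain_apply (inc_inj false)]
    have h2 : 0 ≤ Finsupp.mapDomain (inc true) nu2 (1 : FP M6) := map_nonneg true nu2_nonneg 1
    have h3 : 0 < nu1 1 := by
      rw [nu1_apply]
      apply Finset.prod_pos
      intro i _
      simp [q1]
    have h4 := al_pos
    have h5 := be_pos
    rw [h1]
    positivity
  · intro n
    unfold mm
    rw [Function.iterate_succ_apply']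
    set φ := (op nu)^[n] dl
    have hφ : ∀ x, 0 ≤ φ x := iter_nonneg nu_nonneg n dl_nonneg
    unfold op Finsupp.sum
    by_cases h : (1 : FP M6) ∈ nu.support
    · have h2 := Finset.single_le_sum (f := fun y => nu y * φ (y⁻¹ * 1))
        (fun y _ => mul_nonneg (nu_nonneg y) (hφ _)) h
      simpa using h2
    · rw [Finsupp.notMem_support_iff.1 h, zero_mul]
      exact Finset.sum_nonneg (fun y _ => mul_nonneg (nu_nonneg y) (hφ _))

end X141.RD
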