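import Mathlib

set_option autoImplicit false
set_option linter.unusedSectionVars false

namespace X141.RD

open Finset

/-- law of the lazy walk on `ℤ` -/
noncomputable def bz (n : ℕ) (k : ℤ) : ℝ := ((2 * n).choose (n + k.natAbs) : ℝ) / 4 ^ n

lemma bz_nonneg (n : ℕ) (k : ℤ) : 0 ≤ bz n k := by unfold bz; positivity

lemma bz_zero (k : ℤ) : bz 0 k = if k = 0 then 1 else 0 := by
  unfold bz
  by_cases h : k = 0
  · simp [h]
  · rw [if_neg h]
    have : 0 < k.natAbs := Int.natAbs_pos.2 h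
    rw [Nat.choose_eq_zero_of_lt (by omega)]
    simp

lemma choose_two (n m : ℕ) : (2 * (n + 1)).choose (m + 2) =
    (2 * n).choose m + 2 * (2 * n).choose (m + 1) + (2 * n).choose (m + 2) := by
  have h : 2 * (n + 1) = 2 * n + 1 + 1 := by ring
  rw [h, Nat.choose_succ_succ, Nat.choose_succ_succ, Nat.choose_succ_succ]
  ring

lemma bz_succ (n : ℕ) (k : ℤ) :
    bz (n + 1) k = 1 / 2 * bz n k + 1 / 4 * bz n (k - 1) + 1 / 4 * bz n (k + 1) := by
  unfold bz
  have h4 : (4 : ℝ) ^ (n + 1) = 4 ^ n * 4 := pow_succ 4 n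
  rw [h4]
  have key : ((2 * (n + 1)).choose (n + 1 + k.natAbs) : ℝ) =
      2 * ((2 * n).choose (n + k.natAbs) : ℝ) + ((2 * n).choose (n + (k - 1).natAbs) : ℝ) +
        ((2 * n).choose (n + (k + 1).natAbs) : ℝ) := by
    rcases lt_trichotomy k 0 with hk | hk | hk
    · obtain ⟨j, hj⟩ : ∃ j : ℕ, k.natAbs = j + 1 := ⟨k.natAbs - 1, by omega⟩
      have h1 : (k - 1).natAbs = j + 2 := by omega
      have h2 : (k + 1).natAbs = j := by omega
      rw [hj, h1, h2]
      have h3 := choose_two n (n + j)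
      have h5 : n + 1 + (j + 1) = n + j + 2 := by ring
      have h6 : n + (j + 1) = n + j + 1 := by ring
      have h7 : n + (j + 2) = n + j + 2 := by ring
      rw [h5, h6, h7, h3]
      push_cast
      ring
    · subst hk
      simp only [Int.natAbs_zero, add_zero, zero_sub, Int.natAbs_neg, Int.natAbs_one, zero_add]
      cases n with
      | zero => norm_num
      | succ n =>
        have h3 := choose_two (n + 1) n
        have h5 : (2 * (n + 1)).choose n = (2 * (n + 1)).choose (n + 1 + 1) := by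
          apply Nat.choose_symm_of_eq_add
          ring
        rw [h5] at h3
        have h6 : n + 1 + 1 = n + 2 := rfl
        rw [h6] at h3 ⊢
        rw [h3]
        push_cast
        ring
    · obtain ⟨j, hj⟩ : ∃ j : ℕ, k.natAbs = j + 1 := ⟨k.natAbs - 1, by omega⟩
      have h1 : (k - 1).natAbs = j := by omega
      have h2 : (k + 1).natAbs = j + 2 := by omega
      rw [hj, h1, h2]
      have h3 := choose_two n (n + j)
      have h5 : n + 1 + (j + 1) = n + j + 2 := by ring
      have h6 : n + (j + 1) = n + j + 1 := by ring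
      have h7 : n + (j + 2) = n + j + 2 := by ring
      rw [h5, h6, h7, h3]
      push_cast
      ring
  rw [key]
  field_simp
  ring

lemma bz_le (n : ℕ) (k : ℤ) : bz n k ≤ bz n 0 := by
  unfold bz
  apply div_le_div_of_nonneg_right _ (by positivity)
  have := Nat.choose_le_centralBinom (n + k.natAbs) n
  rw [Nat.centralBinom] at this
  simpa using this

/-- return probabilities of the lazy walk -/
noncomputable def an (n : ℕ) : ℝ := bz n 0

lemma an_zero : an 0 = 1 := by simp [an, bz_zero]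

lemma an_succ (n : ℕ) : an (n + 1) = an n * ((2 * n + 1) / (2 * n + 2)) := by
  unfold an bz
  simp only [Int.natAbs_zero, add_zero]
  have h1 := Nat.succ_mul_centralBinom_succ n
  rw [Nat.centralBinom, Nat.centralBinom] at h1
  have h2 : ((n : ℝ) + 1) * ((2 * (n + 1)).choose (n + 1) : ℝ) =
      2 * (2 * n + 1) * ((2 * n).choose n : ℝ) := by exact_mod_cast h1
  rw [pow_succ]
  have h3 : ((n : ℝ) + 1) ≠ 0 := by positivity
  have h4 : ((2 * (n + 1)).choose (n + 1) : ℝ) =
      2 * (2 * n + 1) * ((2 * n).choose n : ℝ) / ((n : ℝ) + 1) := by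
    field_simp
    linarith
  rw [h4]
  field_simp
  ring

lemma an_pos (n : ℕ) : 0 < an n := by
  induction n with
  | zero => rw [an_zero]; norm_num
  | succ n ih => rw [an_succ]; positivity

lemma an_le_one (n : ℕ) : an n ≤ 1 := by
  induction n with
  | zero => rw [an_zero]
  | succ n ih =>
    rw [an_succ]
    have h1 : ((2 * n + 1 : ℝ) / (2 * n + 2)) ≤ 1 := by
      rw [div_le_one (by positivity)]; linarith
    have := an_pos n
    calc _ ≤ an n * 1 := mul_le_mul_of_nonneg_left h1 this.le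
      _ ≤ 1 := by linarith

lemma an_sq_le (n : ℕ) : (2 * n + 1) * an n ^ 2 ≤ 1 := by
  induction n with
  | zero => rw [an_zero]; norm_num
  | succ n ih =>
    rw [an_succ, mul_pow]
    have h0 := sq_nonneg (an n)
    have h1 : (2 * ((n + 1 : ℕ) : ℝ) + 1) * ((2 * n + 1) / (2 * n + 2)) ^ 2 ≤ 2 * n + 1 := by
      push_cast
      rw [div_pow, mul_div_assoc', div_le_iff₀ (by positivity)]
      nlinarith [Nat.cast_nonneg (α := ℝ) n]
    calc (2 * ((n + 1 : ℕ) : ℝ) + 1) * (an n ^ 2 * ((2 * n + 1) / (2 * n + 2)) ^ 2)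
        = an n ^ 2 * ((2 * ((n + 1 : ℕ) : ℝ) + 1) * ((2 * n + 1) / (2 * n + 2)) ^ 2) := by ring
      _ ≤ an n ^ 2 * (2 * n + 1) := mul_le_mul_of_nonneg_left h1 h0
      _ ≤ 1 := by linarith

lemma an_sq_ge (n : ℕ) (hn : 1 ≤ n) : 1 ≤ 4 * n * an n ^ 2 := by
  induction n, hn using Nat.le_induction with
  | base =>
    rw [show (1 : ℕ) = 0 + 1 from rfl, an_succ, an_zero]; norm_num
  | succ n hn ih =>
    rw [an_succ, mul_pow]
    have h0 := sq_nonneg (an n)
    have hn' : (1 : ℝ) ≤ n := by exact_mod_cast hn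
    have h1 : 4 * (n : ℝ) ≤ 4 * ((n + 1 : ℕ) : ℝ) * ((2 * n + 1) / (2 * n + 2)) ^ 2 := by
      push_cast
      rw [div_pow, mul_div_assoc', le_div_iff₀ (by positivity)]
      nlinarith
    calc 1 ≤ 4 * n * an n ^ 2 := ih
      _ = an n ^ 2 * (4 * n) := by ring
      _ ≤ an n ^ 2 * (4 * ((n + 1 : ℕ) : ℝ) * ((2 * n + 1) / (2 * n + 2)) ^ 2) :=
          mul_le_mul_of_nonneg_left h1 h0
      _ = _ := by ring

lemma an_mul_le (k l : ℕ) : an k * an l ≤ an (k + l) := by
  induction k with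
  | zero => rw [an_zero, one_mul, zero_add]
  | succ k ih =>
    have h1 : k + 1 + l = k + l + 1 := by ring
    rw [h1, an_succ, an_succ]
    have h2 : ((2 * k + 1 : ℝ) / (2 * k + 2)) ≤ (2 * ((k + l : ℕ) : ℝ) + 1) / (2 * ((k + l : ℕ) : ℝ) + 2) := by
      rw [div_le_div_iff₀ (by positivity) (by positivity)]
      push_cast
      nlinarith [Nat.cast_nonneg (α := ℝ) l]
    have h3 := an_pos k
    have h4 := an_pos l
    calc an k * ((2 * k + 1) / (2 * k + 2)) * an l = (an k * an l) * ((2 * k + 1) / (2 * k + 2)) := by ring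
      _ ≤ an (k + l) * ((2 * k + 1) / (2 * k + 2)) := by
          apply mul_le_mul_of_nonneg_right ih; positivity
      _ ≤ _ := mul_le_mul_of_nonneg_left h2 (an_pos _).le

/-- return probabilities in dimension six -/
noncomputable def pn (n : ℕ) : ℝ := an n ^ 6

lemma pn_pos (n : ℕ) : 0 < pn n := pow_pos (an_pos n) 6
lemma pn_zero : pn 0 = 1 := by simp [pn, an_zero]

lemma pn_mul_le (k l : ℕ) : pn k * pn l ≤ pn (k + l) := by
  unfold pn
  rw [← mul_pow]
  exact pow_le_pow_left₀ (mul_pos (an_pos _) (an_pos _)).le (an_mul_le k l) 6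

lemma pn_le (n : ℕ) : pn n ≤ 1 / ((n : ℝ) + 1) ^ 3 := by
  have h1 := an_sq_le n
  have h2 := sq_nonneg (an n)
  have h3 : ((n : ℝ) + 1) * an n ^ 2 ≤ 1 := by
    have : (n : ℝ) * an n ^ 2 ≥ 0 := by positivity
    nlinarith
  rw [le_div_iff₀ (by positivity)]
  have h4 : pn n * ((n : ℝ) + 1) ^ 3 = (((n : ℝ) + 1) * an n ^ 2) ^ 3 := by unfold pn; ring
  rw [h4]
  apply pow_le_one₀ _ h3
  positivity

lemma pn_ge (n : ℕ) (hn : 1 ≤ n) : 1 / (64 * (n : ℝ) ^ 3) ≤ pn n := by
  have h1 := an_sq_ge n hn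
  have hn' : (0 : ℝ) < n := by exact_mod_cast hn
  rw [div_le_iff₀ (by positivity)]
  have h4 : pn n * (64 * (n : ℝ) ^ 3) = (4 * n * an n ^ 2) ^ 3 := by unfold pn; ring
  rw [h4]
  exact one_le_pow₀ h1

end X141.RD
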