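import Pool.Agent.X141.RD.Crit

set_option autoImplicit false
set_option linter.unusedSectionVars false

namespace X141.RD

open Finset Filter

/-- critical value of the decay rate on the `ℤ` factor -/
noncomputable def Z1 : ℝ := h1 / √(2 * DD - h1 ^ 2)

lemma Z1_aux : 0 < 2 * DD - h1 ^ 2 := by
  have := h1_sq_lt
  have := DD_pos
  linarith

lemma Z1_pos : 0 < Z1 := div_pos h1_pos (Real.sqrt_pos.2 Z1_aux)

lemma Z1_sq : Z1 ^ 2 * (2 * DD - h1 ^ 2) = h1 ^ 2 := by
  unfold Z1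
  rw [div_pow, Real.sq_sqrt Z1_aux.le, div_mul_cancel₀ _ Z1_aux.ne']

lemma Z1_lt_one : Z1 < 1 := by
  have h := Z1_sq
  have h2 := h1_sq_lt
  have h3 := Z1_pos
  have h4 := Z1_aux
  have h5 := h1_pos
  by_contra hc
  push Not at hc
  have h6 : 1 ≤ Z1 ^ 2 := one_le_pow₀ hc
  nlinarith

lemma Z1_sq_lt : Z1 ^ 2 < 1 := by
  have h1 := Z1_pos
  have h2 := Z1_lt_one
  nlinarith

/-- ratio of the weights -/
noncomputable def tau : ℝ := h1 * (1 - Z1 ^ 2) / (2 * Z1)

lemma tau_pos : 0 < tau := by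
  unfold tau
  have := Z1_sq_lt
  have := Z1_pos
  have := h1_pos
  have : 0 < 1 - Z1 ^ 2 := by linarith
  positivity

/-- weight of the first factor -/
noncomputable def al : ℝ := tau / (1 + tau)
/-- weight of the second factor -/
noncomputable def be : ℝ := 1 / (1 + tau)

lemma al_pos : 0 < al := by have := tau_pos; unfold al; positivity
lemma be_pos : 0 < be := by have := tau_pos; unfold be; positivity
lemma al_add_be : al + be = 1 := by
  have := tau_pos
  unfold al be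
  field_simp
  ring

lemma al_eq : al = tau * be := by
  unfold al be; ring

lemma crit1 : be * h1 * (1 - Z1 ^ 2) = 2 * al * Z1 := by
  rw [al_eq]
  have h : tau * (2 * Z1) = h1 * (1 - Z1 ^ 2) := by
    unfold tau
    rw [div_mul_cancel₀]
    have := Z1_pos
    positivity
  calc be * h1 * (1 - Z1 ^ 2) = be * (h1 * (1 - Z1 ^ 2)) := by ring
    _ = be * (tau * (2 * Z1)) := by rw [h]
    _ = _ := by ring

lemma crit2 : be ^ 2 * DD * (1 - Z1 ^ 2) ^ 2 = 2 * al ^ 2 * (1 + Z1 ^ 2) := by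
  have h1' := crit1
  have h2 := Z1_sq
  have h3 : (be * h1 * (1 - Z1 ^ 2)) ^ 2 = (2 * al * Z1) ^ 2 := by rw [h1']
  have h4 : (1 + Z1 ^ 2) * h1 ^ 2 = 2 * DD * Z1 ^ 2 := by linarith
  have h5 : 0 < h1 ^ 2 := pow_pos h1_pos 2
  apply mul_right_cancel₀ h5.ne'
  calc be ^ 2 * DD * (1 - Z1 ^ 2) ^ 2 * h1 ^ 2 = DD * (be * h1 * (1 - Z1 ^ 2)) ^ 2 := by ring
    _ = DD * (2 * al * Z1) ^ 2 := by rw [h3]
    _ = 2 * al ^ 2 * (2 * DD * Z1 ^ 2) := by ring
    _ = 2 * al ^ 2 * ((1 + Z1 ^ 2) * h1 ^ 2) := by rw [h4]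
    _ = _ := by ring

/-- decay rate on the `ℤ` factor -/
noncomputable def zf (h : ℝ) : ℝ := (√(al ^ 2 + be ^ 2 * h ^ 2) - al) / (be * h)

lemma zf_eq {h : ℝ} (hh : 0 < h) : be * h * (1 - zf h ^ 2) = 2 * al * zf h := by
  have hb := be_pos
  have ha := al_pos
  have h1 : 0 ≤ al ^ 2 + be ^ 2 * h ^ 2 := by positivity
  have h2 := Real.sq_sqrt h1
  unfold zf
  set s := √(al ^ 2 + be ^ 2 * h ^ 2)
  have h3 : be * h ≠ 0 := by positivity
  field_simp
  nlinarith

lemma zf_pos {h : ℝ} (hh : 0 < h) : 0 < zf h := by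
  have hb := be_pos
  have ha := al_pos
  unfold zf
  apply div_pos _ (by positivity)
  rw [sub_pos]
  apply Real.lt_sqrt_of_sq_lt
  have : 0 < be ^ 2 * h ^ 2 := by positivity
  linarith

lemma zf_lt_one {h : ℝ} (hh : 0 < h) : zf h < 1 := by
  have h1 := zf_eq hh
  have h2 := zf_pos hh
  have hb := be_pos
  have ha := al_pos
  by_contra hc
  push Not at hc
  have h3 : 1 ≤ zf h ^ 2 := one_le_pow₀ hc
  have h4 : 0 < 2 * al * zf h := by positivity
  have h5 : be * h * (1 - zf h ^ 2) ≤ 0 := by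
    apply mul_nonpos_of_nonneg_of_nonpos (by positivity) (by linarith)
  linarith

lemma key_id {h h' z z' : ℝ} (e : be * h * (1 - z ^ 2) = 2 * al * z)
    (e' : be * h' * (1 - z' ^ 2) = 2 * al * z') :
    (h' - h) * be * (1 - z' ^ 2) * (1 - z ^ 2) = 2 * al * (z' - z) * (1 + z * z') := by
  calc (h' - h) * be * (1 - z' ^ 2) * (1 - z ^ 2) = (be * h' * (1 - z' ^ 2)) * (1 - z ^ 2) -
        (be * h * (1 - z ^ 2)) * (1 - z' ^ 2) := by ring
    _ = _ := by rw [e, e']; ring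

lemma zf_mono {h h' : ℝ} (hh : 0 < h) (hl : h ≤ h') : zf h ≤ zf h' := by
  have hh' : 0 < h' := hh.trans_le hl
  have h1 := key_id (zf_eq hh) (zf_eq hh')
  have ha := al_pos
  have hb := be_pos
  have p := zf_pos hh
  have p' := zf_pos hh'
  have q := zf_lt_one hh
  have q' := zf_lt_one hh'
  have r : 0 ≤ 1 - zf h ^ 2 := by nlinarith
  have r' : 0 ≤ 1 - zf h' ^ 2 := by nlinarith
  have h2 : 0 ≤ (h' - h) * be * (1 - zf h' ^ 2) * (1 - zf h ^ 2) := by
    have : 0 ≤ h' - h := by linarith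
    positivity
  rw [h1] at h2
  by_contra hc
  push Not at hc
  have h3 : 2 * al * (zf h' - zf h) * (1 + zf h * zf h') < 0 := by
    apply mul_neg_of_neg_of_pos _ (by positivity)
    apply mul_neg_of_pos_of_neg (by positivity) (by linarith)
  linarith

lemma zf_h1 : zf h1 = Z1 := by
  have h := key_id (zf_eq h1_pos) crit1
  have ha := al_pos
  have p := zf_pos h1_pos
  have p' := Z1_pos
  have h2 : 2 * al * (Z1 - zf h1) * (1 + zf h1 * Z1) = 0 := by rw [← h]; ring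
  have h3 : 1 + zf h1 * Z1 ≠ 0 := by positivity
  have h4 : 2 * al ≠ 0 := by positivity
  rcases mul_eq_zero.1 h2 with h5 | h5
  · rcases mul_eq_zero.1 h5 with h6 | h6
    · exact absurd h6 h4
    · linarith
  · exact absurd h5 h3

/-- the spectral parameter -/
noncomputable def lam (x : ℝ) : ℝ := al / x + be * zf (hx x)

/-- the increment of the spectral parameter -/
noncomputable def eps (y : ℝ) : ℝ := lam (1 - y) - lam 1

lemma lam_pos {x : ℝ} (h0 : 0 < x) (hx1 : x ≤ 1) : 0 < lam x := by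
  unfold lam
  have := al_pos
  have := be_pos
  have := zf_pos (hx_pos h0 hx1)
  positivity

/-- expansion of `eps` -/
lemma eps_eq {y : ℝ} (h0 : 0 ≤ y) (hy : y ≤ 1 / 2) :
    ∃ r, eps y = al * y ^ 2 / (1 - y) + al / DD * EE y - r ∧ 0 ≤ r ∧
      r ≤ 2 * be / (DD * (1 - Z1 ^ 2)) * (h1 - hx (1 - y)) ^ 2 := by
  have ha := al_pos
  have hb := be_pos
  have hD := DD_pos
  have hZ := Z1_pos
  have hZ1 := Z1_lt_one
  have hh : 0 < hx (1 - y) := hx_pos (by linarith) (by linarith)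
  have hm : hx (1 - y) ≤ h1 := by
    have := le_hx_diff h0 (by linarith : y ≤ 1); linarith
  set z := zf (hx (1 - y)) with hz
  have hz0 : 0 < z := zf_pos hh
  have hz1 : z ≤ Z1 := by rw [← zf_h1]; exact zf_mono hh hm
  have hid : (h1 - hx (1 - y)) * be * (1 - Z1 ^ 2) * (1 - z ^ 2) = 2 * al * (Z1 - z) * (1 + z * Z1) :=
    key_id (zf_eq hh) crit1
  set u := h1 - hx (1 - y) with hu
  have hu0 : 0 ≤ u := by linarith
  set v := Z1 - z with hv
  have hv0 : 0 ≤ v := by linarith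
  have hw : 0 < 1 - Z1 ^ 2 := by nlinarith
  have hw2 : 0 < 1 - z ^ 2 := by nlinarith
  refine ⟨be * v - al / DD * u, ?_, ?_, ?_⟩
  · unfold eps lam
    rw [hx_one, zf_h1, ← hz]
    have h3 : u = DD * y - EE y := hx_diff h0 (by linarith)
    rw [h3]
    have hy1 : (1 - y) ≠ 0 := by linarith
    rw [hv]
    field_simp
    ring
  · -- be v = u (al/DD) (1+Z1²)(1-z²)/((1-Z1²)(1+z Z1))
    have h3 : be * v * (2 * al * (1 + z * Z1)) * (1 - Z1 ^ 2) * DD
        = u * (1 - z ^ 2) * (2 * al ^ 2 * (1 + Z1 ^ 2)) := by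
      rw [← crit2]
      calc be * v * (2 * al * (1 + z * Z1)) * (1 - Z1 ^ 2) * DD
          = be * (2 * al * v * (1 + z * Z1)) * (1 - Z1 ^ 2) * DD := by ring
        _ = be * (u * be * (1 - Z1 ^ 2) * (1 - z ^ 2)) * (1 - Z1 ^ 2) * DD := by rw [← hid]
        _ = _ := by ring
    have h4 : (1 + z * Z1) * (1 - Z1 ^ 2) ≤ (1 - z ^ 2) * (1 + Z1 ^ 2) := by
      have e1 : 1 + z * Z1 ≤ 1 + Z1 ^ 2 := by nlinarith
      have e2 : 1 - Z1 ^ 2 ≤ 1 - z ^ 2 := by nlinarith
      calc (1 + z * Z1) * (1 - Z1 ^ 2) ≤ (1 + Z1 ^ 2) * (1 - z ^ 2) :=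
            mul_le_mul e1 e2 hw.le (by positivity)
        _ = _ := by ring
    have h5 : al * u * ((1 + z * Z1) * (1 - Z1 ^ 2)) ≤ al * u * ((1 - z ^ 2) * (1 + Z1 ^ 2)) :=
      mul_le_mul_of_nonneg_left h4 (by positivity)
    have h6 : al * u * ((1 + z * Z1) * (1 - Z1 ^ 2)) ≤ (be * v * DD) * ((1 + z * Z1) * (1 - Z1 ^ 2)) := by
      have h7 : 2 * al * ((be * v * DD) * ((1 + z * Z1) * (1 - Z1 ^ 2))) =
          2 * al * (al * u * ((1 - z ^ 2) * (1 + Z1 ^ 2))) := by linarith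
      have h8 := mul_left_cancel₀ (by positivity : 2 * al ≠ 0) h7
      linarith
    have h7 : al * u ≤ be * v * DD :=
      le_of_mul_le_mul_right h6 (by positivity)
    rw [sub_nonneg, div_mul_eq_mul_div, div_le_iff₀ hD]
    exact h7
  · have h3 : be * v * (2 * al * (1 + z * Z1)) * (1 - Z1 ^ 2) * DD
        = u * (1 - z ^ 2) * (2 * al ^ 2 * (1 + Z1 ^ 2)) := by
      rw [← crit2]
      calc be * v * (2 * al * (1 + z * Z1)) * (1 - Z1 ^ 2) * DD
          = be * (2 * al * v * (1 + z * Z1)) * (1 - Z1 ^ 2) * DD := by ring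
        _ = be * (u * be * (1 - Z1 ^ 2) * (1 - z ^ 2)) * (1 - Z1 ^ 2) * DD := by rw [← hid]
        _ = _ := by ring
    -- v ≤ u be /(2 al)
    have h4 : v * (2 * al) ≤ u * be := by
      have h5 : (v * (2 * al)) * (1 + z * Z1) = (u * be) * ((1 - Z1 ^ 2) * (1 - z ^ 2)) := by
        linarith
      have h6 : (1 - Z1 ^ 2) * (1 - z ^ 2) ≤ 1 := by
        apply mul_le_one₀ _ hw2.le _ <;> nlinarith
      have h7 : v * (2 * al) ≤ (v * (2 * al)) * (1 + z * Z1) := by
        have : 0 ≤ v * (2 * al) := by positivity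
        have h8 : 0 ≤ z * Z1 := by positivity
        nlinarith
      have h9 : (u * be) * ((1 - Z1 ^ 2) * (1 - z ^ 2)) ≤ (u * be) * 1 :=
        mul_le_mul_of_nonneg_left h6 (by positivity)
      linarith
    -- the difference
    have h5 : (be * v * DD - al * u) * ((1 + z * Z1) * (1 - Z1 ^ 2)) =
        al * u * (v * (2 * Z1 + z + Z1 ^ 2 * z)) := by
      have h7 : 2 * al * ((be * v * DD) * ((1 + z * Z1) * (1 - Z1 ^ 2))) =
          2 * al * (al * u * ((1 - z ^ 2) * (1 + Z1 ^ 2))) := by linarith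
      have h8 := mul_left_cancel₀ (by positivity : 2 * al ≠ 0) h7
      rw [sub_mul, h8, hv]
      ring
    have h6 : (be * v * DD - al * u) * (1 - Z1 ^ 2) ≤ 2 * be * u ^ 2 := by
      have h7 : 2 * Z1 + z + Z1 ^ 2 * z ≤ 4 := by nlinarith
      have h8 : al * u * (v * (2 * Z1 + z + Z1 ^ 2 * z)) ≤ al * u * (v * 4) := by
        apply mul_le_mul_of_nonneg_left _ (by positivity)
        exact mul_le_mul_of_nonneg_left h7 hv0
      have h9 : al * u * (v * 4) ≤ 2 * be * u ^ 2 := by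
        calc al * u * (v * 4) = (v * (2 * al)) * (2 * u) := by ring
          _ ≤ (u * be) * (2 * u) := mul_le_mul_of_nonneg_right h4 (by positivity)
          _ = _ := by ring
      have h10 : (be * v * DD - al * u) * ((1 + z * Z1) * (1 - Z1 ^ 2)) ≤ 2 * be * u ^ 2 := by
        rw [h5]; exact h8.trans h9
      have h11 : 0 ≤ (be * v * DD - al * u) ∨ (be * v * DD - al * u) < 0 := le_or_gt _ _
      rcases h11 with h11 | h11
      · have h12 : 0 ≤ z * Z1 := by positivity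
        have h13 : 0 ≤ (be * v * DD - al * u) * (1 - Z1 ^ 2) := mul_nonneg h11 hw.le
        have h14 : 0 ≤ ((be * v * DD - al * u) * (1 - Z1 ^ 2)) * (z * Z1) := mul_nonneg h13 h12
        linarith
      · have h12 : (be * v * DD - al * u) * (1 - Z1 ^ 2) < 0 := mul_neg_of_neg_of_pos h11 hw
        have : 0 ≤ 2 * be * u ^ 2 := by positivity
        linarith
    have h7 : be * v - al / DD * u = (be * v * DD - al * u) * (1 - Z1 ^ 2) / (DD * (1 - Z1 ^ 2)) := by
      field_simp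
    rw [h7, div_mul_eq_mul_div]
    exact div_le_div_of_nonneg_right h6 (by positivity)

/-- `eps` dominates every multiple of `y²` -/
lemma eps_ge (K : ℝ) : ∃ y0, 0 < y0 ∧ y0 ≤ 1 / 2 ∧ ∀ y, 0 < y → y ≤ y0 → K * y ^ 2 ≤ eps y := by
  have ha := al_pos
  have hb := be_pos
  have hD := DD_pos
  have hw : 0 < 1 - Z1 ^ 2 := by have := Z1_sq_lt; linarith
  set C := 2 * be / (DD * (1 - Z1 ^ 2)) with hC
  have hC0 : 0 ≤ C := by positivity
  obtain ⟨y0, h0, h1', h2⟩ := EE_ge ((K + C * DD ^ 2) * DD / al)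
  refine ⟨y0, h0, h1', ?_⟩
  intro y hy hyy
  obtain ⟨r, e, hr, hr2⟩ := eps_eq hy.le (hyy.trans h1')
  rw [e]
  have h3 := h2 y hy hyy
  have h4 : al / DD * ((K + C * DD ^ 2) * DD / al * y ^ 2) ≤ al / DD * EE y :=
    mul_le_mul_of_nonneg_left h3 (by positivity)
  have h5 : al / DD * ((K + C * DD ^ 2) * DD / al * y ^ 2) = (K + C * DD ^ 2) * y ^ 2 := by
    field_simp
  rw [h5] at h4
  have h6 : 0 ≤ al * y ^ 2 / (1 - y) := by
    apply div_nonneg (by positivity) (by linarith)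
  have h7 : (h1 - hx (1 - y)) ^ 2 ≤ (DD * y) ^ 2 := by
    apply pow_le_pow_left₀ _ (hx_diff_le hy.le (by linarith))
    have := le_hx_diff hy.le (by linarith)
    linarith
  have h8 : C * (h1 - hx (1 - y)) ^ 2 ≤ C * (DD * y) ^ 2 := mul_le_mul_of_nonneg_left h7 hC0
  nlinarith

/-- `eps` is at most `C y^(2-η)` -/
lemma eps_le {η : ℝ} (hη0 : 0 < η) (hη1 : η < 1) :
    ∃ C, 0 < C ∧ ∀ y, 0 < y → y ≤ 1 / 2 → eps y ≤ C * y ^ (2 - η) := by
  have ha := al_pos
  have hD := DD_pos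
  obtain ⟨C, hC, h⟩ := EE_le hη0 hη1
  refine ⟨2 * al + al / DD * C, by positivity, ?_⟩
  intro y hy hy2
  obtain ⟨r, e, hr, hr2⟩ := eps_eq hy.le hy2
  rw [e]
  have h2 := h y hy.le (by linarith)
  have h3 : al / DD * EE y ≤ al / DD * (C * y ^ (2 - η)) :=
    mul_le_mul_of_nonneg_left h2 (by positivity)
  have h4 : al * y ^ 2 / (1 - y) ≤ 2 * al * y ^ 2 := by
    rw [div_le_iff₀ (by linarith)]
    have : 0 ≤ al * y ^ 2 := by positivity
    nlinarith
  have h5 : y ^ 2 ≤ y ^ (2 - η) := by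
    have h6 : y ^ 2 = y ^ (2 : ℝ) := by norm_cast
    rw [h6]
    exact Real.rpow_le_rpow_of_exponent_ge hy (by linarith) (by linarith)
  have h6 : 2 * al * y ^ 2 ≤ 2 * al * y ^ (2 - η) := mul_le_mul_of_nonneg_left h5 (by positivity)
  nlinarith

lemma eps_tendsto : Tendsto eps (nhdsWithin 0 (Set.Ioi 0)) (nhds 0) := by
  obtain ⟨y0, h0, h1', h2⟩ := eps_ge 0
  obtain ⟨C, hC, h3⟩ := eps_le (η := 1 / 2) (by norm_num) (by norm_num)
  have h4 : Tendsto (fun y : ℝ => C * y ^ (2 - (1 / 2 : ℝ))) (nhdsWithin 0 (Set.Ioi 0)) (nhds 0) := by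
    have h5 : ContinuousAt (fun y : ℝ => C * y ^ (2 - (1 / 2 : ℝ))) 0 := by
      apply ContinuousAt.mul continuousAt_const
      exact Real.continuousAt_rpow_const _ _ (Or.inr (by norm_num))
    have h6 := h5.tendsto
    rw [Real.zero_rpow (by norm_num), mul_zero] at h6
    exact h6.mono_left nhdsWithin_le_nhds
  apply tendsto_of_tendsto_of_tendsto_of_le_of_le' tendsto_const_nhds h4
  · filter_upwards [Ioc_mem_nhdsGT h0] with y hy
    have := h2 y hy.1 hy.2
    linarith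
  · filter_upwards [Ioc_mem_nhdsGT (show (0:ℝ) < 1 / 2 by norm_num)] with y hy
    exact h3 y hy.1 hy.2

end X141.RD
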