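import Pool.Agent.X141.RD.Kern

set_option autoImplicit false
set_option linter.unusedSectionVars false
set_option linter.unusedVariables false

namespace X141.RD

open Monoid Finset Filter

/-- critical parameter -/
noncomputable def LL : ℝ := lam 1

lemma LL_pos : 0 < LL := lam_pos one_pos le_rfl

/-- normalised return probabilities -/
noncomputable def AA (n : ℕ) : ℝ := mm n / LL ^ (n + 1)

lemma AA_nonneg (n : ℕ) : 0 ≤ AA n := div_nonneg (mm_nonneg n) (pow_pos LL_pos _).le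

lemma AA_hasSum : HasSum AA (h1 / al) := hasSum_one

lemma AA_le (n : ℕ) : AA n ≤ h1 / al := by
  have := AA_hasSum.summable.sum_le_tsum {n} (fun i _ => AA_nonneg i)
  rw [AA_hasSum.tsum_eq] at this
  simpa using this

/-- the ratio -/
noncomputable def qq (y : ℝ) : ℝ := LL / (LL + eps y)

lemma lam_eq (y : ℝ) : lam (1 - y) = LL + eps y := by unfold eps LL; ring

lemma exists_y1 : ∃ y0, 0 < y0 ∧ y0 ≤ 1 / 2 ∧ ∀ y, 0 < y → y ≤ y0 → 0 < eps y ∧ eps y ≤ LL ∧
    HasSum (fun n => AA n * (1 - qq y ^ (n + 1))) ((h1 - hx (1 - y)) / al) := by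
  obtain ⟨y0, h0, h1', h2⟩ := exists_y0
  have h4 : ∀ᶠ y' in nhdsWithin (0:ℝ) (Set.Ioi 0), eps y' < LL :=
    eps_tendsto.eventually (gt_mem_nhds LL_pos)
  rw [eventually_nhdsWithin_iff] at h4
  obtain ⟨δ, hδ, hδ2⟩ := Metric.eventually_nhds_iff.1 h4
  refine ⟨min y0 (δ / 2), lt_min h0 (by positivity), (min_le_left _ _).trans h1', ?_⟩
  intro y hy hyy
  obtain ⟨h5, h6⟩ := h2 y hy (hyy.trans (min_le_left _ _))
  have h7 : eps y < LL := by
    apply hδ2 _ hy
    rw [Real.dist_eq, sub_zero, abs_of_pos hy]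
    have := hyy.trans (min_le_right _ _)
    linarith
  refine ⟨h5, h7.le, ?_⟩
  have h8 := AA_hasSum.sub h6
  have hL := LL_pos
  have e : h1 / al - hx (1 - y) / al = (h1 - hx (1 - y)) / al := by ring
  rw [e] at h8
  have e2 : (fun n => AA n * (1 - qq y ^ (n + 1))) =
      fun n => AA n - mm n / lam (1 - y) ^ (n + 1) := by
    funext n
    rw [lam_eq]
    unfold AA qq
    have h9 : 0 < LL + eps y := by linarith
    rw [div_pow]
    field_simp
  rw [e2]
  exact h8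

lemma qq_pos {y : ℝ} (h : 0 < eps y) : 0 < qq y := by
  have := LL_pos
  unfold qq; positivity

lemma one_sub_qq {y : ℝ} (h : 0 < eps y) : 1 - qq y = eps y / (LL + eps y) := by
  have := LL_pos
  unfold qq
  field_simp
  ring

lemma one_sub_qq_le {y : ℝ} (h : 0 < eps y) : 1 - qq y ≤ eps y / LL := by
  rw [one_sub_qq h]
  have := LL_pos
  apply div_le_div_of_nonneg_left h.le this
  linarith

lemma le_one_sub_qq {y : ℝ} (h : 0 < eps y) (h2 : eps y ≤ LL) : eps y / (2 * LL) ≤ 1 - qq y := by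
  rw [one_sub_qq h]
  have := LL_pos
  apply div_le_div_of_nonneg_left h.le (by linarith)
  linarith

/-- Case II -/
lemma case_two (C κ d' : ℝ) (hC : 0 ≤ C) (hκ0 : 0 < κ) (hκ1 : κ ≤ 1) (hd : 1 < d' - κ)
    (hA : ∀ k : ℕ, AA k ≤ C * ((k : ℝ) + 1) ^ (-d')) :
    ∃ C', 0 ≤ C' ∧ ∃ y0, 0 < y0 ∧ y0 ≤ 1 / 2 ∧ ∀ y, 0 < y → y ≤ y0 → 0 < eps y ∧
      y ≤ C' * eps y ^ κ := by
  have hL := LL_pos
  have ha := al_pos
  obtain ⟨y0, h0, h1', h2⟩ := exists_y1
  have hsum : Summable (fun k : ℕ => ((k : ℝ) + 1) ^ (κ - d')) := by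
    have h := (summable_nat_add_iff 1).2 (Real.summable_nat_rpow.2 (by linarith : κ - d' < -1))
    refine h.congr ?_
    intro n; push_cast; rfl
  set Sm := ∑' k : ℕ, ((k : ℝ) + 1) ^ (κ - d') with hSm
  have hSm0 : 0 ≤ Sm := tsum_nonneg (fun k => by positivity)
  refine ⟨al * (C * Sm * (1 / LL) ^ κ), by positivity, y0, h0, h1', ?_⟩
  intro y hy hyy
  obtain ⟨he, heL, hs⟩ := h2 y hy hyy
  refine ⟨he, ?_⟩
  have hq := qq_pos he
  have hs0 : 0 ≤ 1 - qq y := by rw [one_sub_qq he]; positivity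
  have hbound : ∀ k : ℕ, AA k * (1 - qq y ^ (k + 1)) ≤
      C * (1 - qq y) ^ κ * ((k : ℝ) + 1) ^ (κ - d') := by
    intro k
    have hk : (0:ℝ) < (k : ℝ) + 1 := by positivity
    set t := ((k : ℝ) + 1) * (1 - qq y) with ht
    have ht0 : 0 ≤ t := by positivity
    have h3 : 1 - qq y ^ (k + 1) ≤ t := by
      have := one_add_mul_le_pow (a := -(1 - qq y)) (by linarith : (-2 : ℝ) ≤ -(1 - qq y)) (k + 1)
      have e : 1 + -(1 - qq y) = qq y := by ring
      rw [e] at this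
      push_cast at this
      rw [ht]
      linarith
    have h4 : 1 - qq y ^ (k + 1) ≤ 1 := by
      have : 0 ≤ qq y ^ (k + 1) := by positivity
      linarith
    have h5 : 1 - qq y ^ (k + 1) ≤ t ^ κ := by
      rcases le_total t 1 with h | h
      · refine h3.trans ?_
        rcases eq_or_lt_of_le ht0 with h6 | h6
        · rw [← h6, Real.zero_rpow hκ0.ne']
        · calc t = t ^ (1:ℝ) := (Real.rpow_one t).symm
            _ ≤ _ := Real.rpow_le_rpow_of_exponent_ge h6 h hκ1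
      · exact h4.trans (Real.one_le_rpow h hκ0.le)
    have h6 : t ^ κ = ((k : ℝ) + 1) ^ κ * (1 - qq y) ^ κ := Real.mul_rpow hk.le hs0
    calc AA k * (1 - qq y ^ (k + 1)) ≤ AA k * t ^ κ := mul_le_mul_of_nonneg_left h5 (AA_nonneg k)
      _ ≤ (C * ((k : ℝ) + 1) ^ (-d')) * t ^ κ := mul_le_mul_of_nonneg_right (hA k) (by positivity)
      _ = C * (1 - qq y) ^ κ * (((k : ℝ) + 1) ^ κ * ((k : ℝ) + 1) ^ (-d')) := by rw [h6]; ring
      _ = _ := by
          rw [← Real.rpow_add hk]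
          rfl
  have h3 : (h1 - hx (1 - y)) / al ≤ C * (1 - qq y) ^ κ * Sm := by
    rw [← hs.tsum_eq, hSm, ← tsum_mul_left]
    exact Summable.tsum_le_tsum hbound hs.summable (hsum.mul_left _)
  have h4 : (1 - qq y) ^ κ ≤ (eps y / LL) ^ κ := Real.rpow_le_rpow hs0 (one_sub_qq_le he) hκ0.le
  have h5 : (eps y / LL) ^ κ = eps y ^ κ * (1 / LL) ^ κ := by
    rw [← Real.mul_rpow he.le (by positivity)]
    congr 1
    ring
  have h6 := le_hx_diff hy.le (by linarith : y ≤ 1)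
  rw [div_le_iff₀ ha] at h3
  calc y ≤ h1 - hx (1 - y) := h6
    _ ≤ C * (1 - qq y) ^ κ * Sm * al := h3
    _ ≤ C * (eps y / LL) ^ κ * Sm * al := by
        apply mul_le_mul_of_nonneg_right _ ha.le
        apply mul_le_mul_of_nonneg_right _ hSm0
        exact mul_le_mul_of_nonneg_left h4 hC
    _ = _ := by rw [h5]; ring

lemma case_two_false (C d' : ℝ) (hC : 0 ≤ C) (hd : 3 / 2 < d') (hd2 : d' ≤ 2)
    (hA : ∀ k : ℕ, AA k ≤ C * ((k : ℝ) + 1) ^ (-d')) : False := by
  set t := (d' - 3 / 2) / 4 with ht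
  have ht0 : 0 < t := by rw [ht]; linarith
  have ht1 : t ≤ 1 / 8 := by rw [ht]; linarith
  obtain ⟨C', hC', y0, h0, h1', h2⟩ := case_two C (1 / 2 + 2 * t) d' hC (by linarith) (by linarith)
    (by rw [ht]; linarith) hA
  obtain ⟨C2, hC2, h3⟩ := eps_le (η := 2 * t) (by linarith) (by linarith)
  set κ := 1 / 2 + 2 * t with hκ
  set s := (2 - 2 * t) * κ - 1 with hs
  have hs0 : 0 < s := by rw [hs, hκ]; nlinarith
  set K := C' * C2 ^ κ with hK
  have hK0 : 0 ≤ K := by positivity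
  have key : ∀ y, 0 < y → y ≤ y0 → 1 ≤ K * y ^ s := by
    intro y hy hyy
    obtain ⟨he, h4⟩ := h2 y hy hyy
    have h5 := h3 y hy (hyy.trans h1')
    have h6 : eps y ^ κ ≤ (C2 * y ^ (2 - 2 * t)) ^ κ := Real.rpow_le_rpow he.le h5 (by linarith)
    rw [Real.mul_rpow hC2.le (by positivity), ← Real.rpow_mul hy.le] at h6
    have h7 : (2 - 2 * t) * κ = s + 1 := by rw [hs]; ring
    rw [h7, Real.rpow_add hy, Real.rpow_one] at h6
    have h8 : y ≤ (K * y ^ s) * y := by
      calc y ≤ C' * eps y ^ κ := h4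
        _ ≤ C' * (C2 ^ κ * (y ^ s * y)) := mul_le_mul_of_nonneg_left h6 hC'
        _ = _ := by rw [hK]; ring
    have h9 : 1 * y ≤ (K * y ^ s) * y := by linarith
    exact le_of_mul_le_mul_right h9 hy
  have hlim : Tendsto (fun y : ℝ => K * y ^ s) (nhdsWithin 0 (Set.Ioi 0)) (nhds 0) := by
    have h5 : ContinuousAt (fun y : ℝ => K * y ^ s) 0 :=
      continuousAt_const.mul (Real.continuousAt_rpow_const _ _ (Or.inr hs0.le))
    have h6 := h5.tendsto
    rw [Real.zero_rpow hs0.ne', mul_zero] at h6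
    exact h6.mono_left nhdsWithin_le_nhds
  have h4 : (1 : ℝ) ≤ 0 := by
    apply ge_of_tendsto hlim
    filter_upwards [Ioc_mem_nhdsGT h0] with y hy
    exact key y hy.1 hy.2
  linarith

/-- Case I -/
lemma case_one_false (c : ℝ) (hc : 0 < c) (n0 : ℕ) (hn0 : 1 ≤ n0)
    (hA : ∀ n : ℕ, n0 ≤ n → c * (n : ℝ) ^ (-(3 / 2 : ℝ)) ≤ AA (2 * n)) : False := by
  have hL := LL_pos
  have ha := al_pos
  have hD := DD_pos
  obtain ⟨y1, h0, h1', h2⟩ := exists_y1
  -- key lower bound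
  have key : ∀ y, 0 < y → y ≤ y1 → (1 - qq y) * n0 ≤ 1 → (c / 16) ^ 2 * (1 - qq y) ≤ (DD / al * y) ^ 2 := by
    intro y hy hyy hsn
    obtain ⟨he, heL, hs⟩ := h2 y hy hyy
    have hq := qq_pos he
    set s := 1 - qq y with hsdef
    have hs0 : 0 < s := by rw [hsdef, one_sub_qq he]; positivity
    have hs1 : s < 1 := by rw [hsdef]; linarith
    have hqs : qq y = 1 - s := by rw [hsdef]; ring
    set N := ⌈1 / s⌉₊ with hN
    have hN1 : 1 / s ≤ N := Nat.le_ceil _
    have hN2 : (N : ℝ) < 1 / s + 1 := Nat.ceil_lt_add_one (by positivity)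
    have hN3 : (1:ℝ) ≤ N := by
      refine le_trans ?_ hN1
      rw [le_div_iff₀ hs0]; linarith
    have hNn0 : n0 ≤ N := by
      have : (n0 : ℝ) ≤ N := by
        refine le_trans ?_ hN1
        rw [le_div_iff₀ hs0]; linarith
      exact_mod_cast this
    have hN0 : 0 < (N : ℝ) := by linarith
    -- sum over n in [N,2N)
    have h3 := hs.summable.sum_le_tsum ((Finset.Ico N (2 * N)).map ⟨fun n => 2 * n, fun a b h => by
      simpa using h⟩) (fun n _ => mul_nonneg (AA_nonneg n) (by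
        have : qq y ^ (n + 1) ≤ 1 := pow_le_one₀ hq.le (by linarith)
        linarith))
    rw [hs.tsum_eq, Finset.sum_map] at h3
    have h4 : ∀ n ∈ Finset.Ico N (2 * N), c * (2 * (N : ℝ)) ^ (-(3 / 2 : ℝ)) * (1 / 2) ≤
        AA (2 * n) * (1 - qq y ^ (2 * n + 1)) := by
      intro n hn
      rw [Finset.mem_Ico] at hn
      have hn1 : (N : ℝ) ≤ n := by exact_mod_cast hn.1
      have hn2 : (n : ℝ) ≤ 2 * N := by exact_mod_cast hn.2.le
      have h5 := hA n (hNn0.trans hn.1)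
      have h6 : (2 * (N : ℝ)) ^ (-(3 / 2 : ℝ)) ≤ (n : ℝ) ^ (-(3 / 2 : ℝ)) :=
        Real.rpow_le_rpow_of_nonpos (by linarith) hn2 (by norm_num)
      have h7 : qq y ^ (2 * n + 1) ≤ 1 / 2 := by
        -- (1-s)^m (1 + m s) ≤ 1
        have h8 : 1 + ((2 * n + 1 : ℕ) : ℝ) * s ≤ (1 + s) ^ (2 * n + 1) :=
          one_add_mul_le_pow (by linarith) _
        have h9 : 1 ≤ (n : ℝ) * s := by
          rw [div_le_iff₀ hs0] at hN1
          nlinarith
        have h10 : (2:ℝ) ≤ (1 + s) ^ (2 * n + 1) := by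
          refine le_trans ?_ h8
          push_cast
          nlinarith
        have h11 : (1 - s) ^ (2 * n + 1) * (1 + s) ^ (2 * n + 1) ≤ 1 := by
          rw [← mul_pow]
          apply pow_le_one₀ <;> nlinarith
        rw [hqs]
        have h12 : 0 ≤ (1 - s) ^ (2 * n + 1) := pow_nonneg (by linarith) _
        nlinarith
      apply mul_le_mul _ _ (by norm_num) (AA_nonneg _)
      · exact (mul_le_mul_of_nonneg_left h6 hc.le).trans h5
      · linarith
    have h5 := Finset.sum_le_sum h4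
    rw [Finset.sum_const, Nat.card_Ico, nsmul_eq_mul] at h5
    have h6 : ((2 * N - N : ℕ) : ℝ) = N := by
      have : 2 * N - N = N := by omega
      rw [this]
    rw [h6] at h5
    have h7 : (N : ℝ) * (c * (2 * (N : ℝ)) ^ (-(3 / 2 : ℝ)) * (1 / 2)) ≤ DD / al * y := by
      refine (h5.trans h3).trans ?_
      have h8 := hx_diff_le hy.le (by linarith : y ≤ 1)
      rw [div_mul_eq_mul_div]
      exact div_le_div_of_nonneg_right h8 ha.le
    have h8 : 0 ≤ (N : ℝ) * (c * (2 * (N : ℝ)) ^ (-(3 / 2 : ℝ)) * (1 / 2)) := by positivity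
    have h9 := pow_le_pow_left₀ h8 h7 2
    refine le_trans ?_ h9
    -- compute the square: N² c² (2N)^{-3}/4 = c²/(32 N)
    have h10 : ((2 * (N : ℝ)) ^ (-(3 / 2 : ℝ))) ^ 2 = 1 / (2 * (N : ℝ)) ^ 3 := by
      rw [← Real.rpow_natCast, ← Real.rpow_mul (by positivity)]
      rw [show (-(3 / 2 : ℝ)) * ((2 : ℕ) : ℝ) = -(3:ℝ) by norm_num]
      rw [Real.rpow_neg (by positivity), one_div]
      norm_cast
    have h11 : ((N : ℝ) * (c * (2 * (N : ℝ)) ^ (-(3 / 2 : ℝ)) * (1 / 2))) ^ 2 = c ^ 2 / (32 * N) := by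
      calc ((N : ℝ) * (c * (2 * (N : ℝ)) ^ (-(3 / 2 : ℝ)) * (1 / 2))) ^ 2
          = (N : ℝ) ^ 2 * c ^ 2 * (((2 * (N : ℝ)) ^ (-(3 / 2 : ℝ))) ^ 2) / 4 := by ring
        _ = _ := by
          rw [h10]
          field_simp
          norm_num
    rw [h11, le_div_iff₀ (by positivity)]
    have h12 : s * N ≤ 2 := by
      have h13 : (N : ℝ) * s < (1 / s + 1) * s := mul_lt_mul_of_pos_right hN2 hs0
      have h14 : (1 / s + 1) * s = 1 + s := by field_simp
      rw [h14] at h13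
      linarith
    calc (c / 16) ^ 2 * s * (32 * N) = c ^ 2 / 8 * (s * N) := by ring
      _ ≤ c ^ 2 / 8 * 2 := mul_le_mul_of_nonneg_left h12 (by positivity)
      _ ≤ c ^ 2 := by nlinarith [sq_nonneg c]
  -- contradiction
  set K0 := (DD / al) ^ 2 / (c / 16) ^ 2 with hK0
  have hK0' : 0 ≤ K0 := by positivity
  obtain ⟨y2, h3, h3', h4⟩ := eps_ge (2 * LL * K0 + 1)
  -- choose y small
  have h5 : ∀ᶠ y in nhdsWithin (0:ℝ) (Set.Ioi 0), eps y < LL / n0 :=
    eps_tendsto.eventually (gt_mem_nhds (by positivity))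
  obtain ⟨y, ⟨h6, h7⟩, h8⟩ := ((h5.and (Ioc_mem_nhdsGT h0)).and (Ioc_mem_nhdsGT h3)).exists
  obtain ⟨he, heL, hs⟩ := h2 y h7.1 h7.2
  have hn0' : (0:ℝ) < n0 := by exact_mod_cast hn0
  have h9 : (1 - qq y) * n0 ≤ 1 := by
    have h10 := one_sub_qq_le he
    have h11 : eps y / LL ≤ 1 / n0 := by
      rw [div_le_div_iff₀ hL hn0']
      rw [lt_div_iff₀ hn0'] at h6
      linarith
    have h12 := mul_le_mul_of_nonneg_right (h10.trans h11) hn0'.le
    rwa [one_div, inv_mul_cancel₀ hn0'.ne'] at h12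
  have h10 := key y h7.1 h7.2 h9
  have h11 := h4 y h8.1 h8.2
  have h12 := le_one_sub_qq he heL
  have h13 : 1 - qq y ≤ K0 * y ^ 2 := by
    rw [hK0, div_mul_eq_mul_div, le_div_iff₀ (by positivity)]
    calc (1 - qq y) * (c / 16) ^ 2 = (c / 16) ^ 2 * (1 - qq y) := by ring
      _ ≤ (DD / al * y) ^ 2 := h10
      _ = _ := by ring
  have h14 : eps y ≤ 2 * LL * (K0 * y ^ 2) := by
    have h15 := h12.trans h13
    rw [div_le_iff₀ (by positivity)] at h15
    linarith
  have h15 : 0 < y ^ 2 := pow_pos h7.1 2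
  nlinarith

/-- from even to all indices -/
lemma all_of_even (C d' : ℝ) (hC : 0 ≤ C) (hd : 0 ≤ d') (n0 : ℕ)
    (h : ∀ n : ℕ, n0 ≤ n → 1 ≤ n → AA (2 * n) ≤ C * (n : ℝ) ^ (-d')) :
    ∃ C', 0 ≤ C' ∧ ∀ k : ℕ, AA k ≤ C' * ((k : ℝ) + 1) ^ (-d') := by
  have hL := LL_pos
  have ha := al_pos
  have hh := h1_pos
  obtain ⟨c1, hc1, hlazy⟩ := exists_lazy
  have hodd : ∀ n, AA (2 * n + 1) ≤ LL / c1 * AA (2 * (n + 1)) := by
    intro n
    have h2 := hlazy (2 * n + 1)
    unfold AA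
    have e : 2 * (n + 1) = 2 * n + 1 + 1 := by ring
    rw [e]
    have e2 : LL / c1 * (mm (2 * n + 1 + 1) / LL ^ (2 * n + 1 + 1 + 1)) =
        (mm (2 * n + 1 + 1) / c1) / LL ^ (2 * n + 1 + 1) := by
      rw [pow_succ LL (2 * n + 1 + 1)]
      field_simp
    rw [e2]
    apply div_le_div_of_nonneg_right _ (by positivity)
    rw [le_div_iff₀ hc1]
    linarith
  set k0 := 2 * n0 + 2 with hk0
  set C1 := (1 + LL / c1) * C * (4:ℝ) ^ d' with hC1
  have hC10 : 0 ≤ C1 := by positivity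
  set C2 := h1 / al * ((k0 : ℝ) + 1) ^ d' with hC2
  have hC20 : 0 ≤ C2 := by positivity
  refine ⟨C1 + C2, by positivity, ?_⟩
  intro k
  have hk1 : (0:ℝ) < (k : ℝ) + 1 := by positivity
  have hp : 0 < ((k : ℝ) + 1) ^ (-d') := by positivity
  have main : ∀ n : ℕ, n0 ≤ n → 1 ≤ n → ((k : ℝ) + 1) ≤ 4 * n → AA (2 * n) ≤ C * (4:ℝ) ^ d' * ((k : ℝ) + 1) ^ (-d') := by
    intro n hn hn1 hkn
    refine (h n hn hn1).trans ?_
    rw [mul_assoc]
    apply mul_le_mul_of_nonneg_left _ hC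
    have h3 : (4 * (n : ℝ)) ^ (-d') ≤ ((k : ℝ) + 1) ^ (-d') :=
      Real.rpow_le_rpow_of_nonpos hk1 hkn (by linarith)
    rw [Real.mul_rpow (by norm_num) (by positivity)] at h3
    have h4 : (4:ℝ) ^ d' * ((4:ℝ) ^ (-d') * (n : ℝ) ^ (-d')) = (n : ℝ) ^ (-d') := by
      rw [← mul_assoc, ← Real.rpow_add (by norm_num)]
      simp
    rw [← h4]
    exact mul_le_mul_of_nonneg_left h3 (by positivity)
  by_cases hk : k < k0
  · have h3 : ((k0 : ℝ) + 1) ^ (-d') ≤ ((k : ℝ) + 1) ^ (-d') := by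
      apply Real.rpow_le_rpow_of_nonpos hk1 _ (by linarith)
      have : (k : ℝ) < k0 := by exact_mod_cast hk
      linarith
    have h4 : C2 * ((k0 : ℝ) + 1) ^ (-d') = h1 / al := by
      rw [hC2, mul_assoc, ← Real.rpow_add (by positivity)]
      simp
    calc AA k ≤ h1 / al := AA_le k
      _ = C2 * ((k0 : ℝ) + 1) ^ (-d') := h4.symm
      _ ≤ C2 * ((k : ℝ) + 1) ^ (-d') := mul_le_mul_of_nonneg_left h3 hC20
      _ ≤ _ := by
          have : 0 ≤ C1 * ((k : ℝ) + 1) ^ (-d') := by positivity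
          linarith
  · push Not at hk
    have h5 : AA k ≤ C1 * ((k : ℝ) + 1) ^ (-d') := by
      rcases Nat.even_or_odd' k with ⟨n, hn | hn⟩
      · have h6 := main n (by omega) (by omega) (by
          rw [hn]; push_cast
          have : (1:ℝ) ≤ n := by exact_mod_cast (by omega : 1 ≤ n)
          linarith)
        rw [← hn] at h6
        refine h6.trans ?_
        apply mul_le_mul_of_nonneg_right _ hp.le
        rw [hC1]
        have : 0 ≤ LL / c1 * C * (4:ℝ) ^ d' := by positivity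
        linarith
      · have h6 := main (n + 1) (by omega) (by omega) (by
          rw [hn]; push_cast
          have : (0:ℝ) ≤ n := Nat.cast_nonneg n
          linarith)
        have h7 := hodd n
        rw [← hn] at h7
        refine h7.trans ?_
        have h8 := mul_le_mul_of_nonneg_left h6 (by positivity : 0 ≤ LL / c1)
        refine h8.trans ?_
        rw [← mul_assoc]
        apply mul_le_mul_of_nonneg_right _ hp.le
        rw [hC1]
        have : 0 ≤ C * (4:ℝ) ^ d' := by positivity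
        linarith
    have : 0 ≤ C2 * ((k : ℝ) + 1) ^ (-d') := by positivity
    linarith

theorem no_asymp (c d ρ : ℝ) (hc : 0 < c) (hρ : 0 ≤ ρ)
    (h : Asymptotics.IsEquivalent atTop (fun n : ℕ => mm (2 * n))
      (fun n : ℕ => c * (n : ℝ) ^ (-d) * ρ ^ (2 * n))) : False := by
  have hL := LL_pos
  obtain ⟨φ, hφ, hφ2⟩ := h.exists_eq_mul
  have e1 : ∀ᶠ n in atTop, (1 / 2 : ℝ) < φ n := hφ.eventually (lt_mem_nhds (by norm_num))
  have e2 : ∀ᶠ n in atTop, φ n < 2 := hφ.eventually (gt_mem_nhds (by norm_num))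
  obtain ⟨n1, hn1⟩ := eventually_atTop.1 ((e1.and e2).and hφ2)
  have hAA : ∀ n : ℕ, AA (2 * n) = mm (2 * n) / (LL * LL ^ (2 * n)) := by
    intro n; unfold AA; rw [pow_succ]; ring
  have up : ∀ n : ℕ, n1 ≤ n → AA (2 * n) ≤ 2 * c / LL * ((n : ℝ) ^ (-d) * ((ρ / LL) ^ 2) ^ n) := by
    intro n hn
    obtain ⟨⟨h2, h3⟩, h4⟩ := hn1 n hn
    have h4' : mm (2 * n) = φ n * (c * (n : ℝ) ^ (-d) * ρ ^ (2 * n)) := h4
    rw [hAA, h4']
    have h5 : 0 ≤ c * (n : ℝ) ^ (-d) * ρ ^ (2 * n) := by positivity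
    have h6 : φ n * (c * (n : ℝ) ^ (-d) * ρ ^ (2 * n)) ≤ 2 * (c * (n : ℝ) ^ (-d) * ρ ^ (2 * n)) :=
      mul_le_mul_of_nonneg_right h3.le h5
    have h7 := div_le_div_of_nonneg_right h6 (by positivity : 0 ≤ LL * LL ^ (2 * n))
    refine h7.trans (le_of_eq ?_)
    rw [div_pow, div_pow, ← pow_mul, ← pow_mul]
    field_simp
  have lo : ∀ n : ℕ, n1 ≤ n → c / (2 * LL) * ((n : ℝ) ^ (-d) * ((ρ / LL) ^ 2) ^ n) ≤ AA (2 * n) := by
    intro n hn
    obtain ⟨⟨h2, h3⟩, h4⟩ := hn1 n hn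
    have h4' : mm (2 * n) = φ n * (c * (n : ℝ) ^ (-d) * ρ ^ (2 * n)) := h4
    rw [hAA, h4']
    have h5 : 0 ≤ c * (n : ℝ) ^ (-d) * ρ ^ (2 * n) := by positivity
    have h6 : 1 / 2 * (c * (n : ℝ) ^ (-d) * ρ ^ (2 * n)) ≤ φ n * (c * (n : ℝ) ^ (-d) * ρ ^ (2 * n)) :=
      mul_le_mul_of_nonneg_right h2.le h5
    have h7 := div_le_div_of_nonneg_right h6 (by positivity : 0 ≤ LL * LL ^ (2 * n))
    refine le_trans (le_of_eq ?_) h7
    rw [div_pow, div_pow, ← pow_mul, ← pow_mul]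
    field_simp
  -- final step for upper bounds
  have fin2 : ∀ d' : ℝ, 3 / 2 < d' → d' ≤ 2 → ∀ C : ℝ, 0 ≤ C →
      (∃ n0 : ℕ, ∀ n : ℕ, n0 ≤ n → 1 ≤ n → AA (2 * n) ≤ C * (n : ℝ) ^ (-d')) → False := by
    intro d' hd1 hd2 C hC ⟨n0, hn0⟩
    obtain ⟨C', hC', hA⟩ := all_of_even C d' hC (by linarith) n0 hn0
    exact case_two_false C' d' hC' hd1 hd2 hA
  rcases lt_trichotomy ρ LL with hlt | heq | hgt
  · -- exponentially smaller
    set r := (ρ / LL) ^ 2 with hr
    have hr0 : 0 ≤ r := by positivity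
    have hr1 : r < 1 := by
      rw [hr]
      apply pow_lt_one₀ (by positivity) _ (by norm_num)
      rw [div_lt_one hL]; exact hlt
    set k := ⌈|2 - d|⌉₊ with hk
    have hlim := tendsto_pow_const_mul_const_pow_of_abs_lt_one k (r := r) (by rw [abs_of_nonneg hr0]; exact hr1)
    obtain ⟨n2, hn2⟩ := eventually_atTop.1 (hlim.eventually (gt_mem_nhds one_pos))
    apply fin2 2 (by norm_num) le_rfl (2 * c / LL) (by positivity)
    refine ⟨max n1 n2, ?_⟩
    intro n hn hn1'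
    have h3 := up n ((le_max_left _ _).trans hn)
    refine h3.trans ?_
    apply mul_le_mul_of_nonneg_left _ (by positivity)
    have hnpos : (0:ℝ) < n := by exact_mod_cast hn1'
    have hnone : (1:ℝ) ≤ n := by exact_mod_cast hn1'
    have h4 : (n : ℝ) ^ (-d) = (n : ℝ) ^ (-2 : ℝ) * (n : ℝ) ^ (2 - d) := by
      rw [← Real.rpow_add hnpos]; congr 1; ring
    have h5 : (n : ℝ) ^ (2 - d) ≤ (n : ℝ) ^ k := by
      rw [← Real.rpow_natCast]
      apply Real.rpow_le_rpow_of_exponent_le hnone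
      exact (le_abs_self _).trans (Nat.le_ceil _)
    have h6 := hn2 n ((le_max_right _ _).trans hn)
    rw [h4, mul_assoc]
    have h7 : (n : ℝ) ^ (2 - d) * r ^ n ≤ 1 :=
      (mul_le_mul_of_nonneg_right h5 (by positivity)).trans h6.le
    calc (n : ℝ) ^ (-2 : ℝ) * ((n : ℝ) ^ (2 - d) * r ^ n) ≤ (n : ℝ) ^ (-2 : ℝ) * 1 :=
          mul_le_mul_of_nonneg_left h7 (by positivity)
      _ = _ := mul_one _
  · have hr : (ρ / LL) ^ 2 = 1 := by rw [heq, div_self hL.ne']; norm_num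
    rcases le_or_gt d (3 / 2) with hd | hd
    · apply case_one_false (c / (2 * LL)) (by positivity) (max n1 1) (le_max_right _ _)
      intro n hn
      have h3 := lo n ((le_max_left _ _).trans hn)
      refine le_trans ?_ h3
      rw [hr, one_pow, mul_one]
      apply mul_le_mul_of_nonneg_left _ (by positivity)
      have hnone : (1:ℝ) ≤ n := by exact_mod_cast (le_max_right _ _).trans hn
      exact Real.rpow_le_rpow_of_exponent_le hnone (by linarith)
    · apply fin2 (min d 2) (lt_min hd (by norm_num)) (min_le_right _ _) (2 * c / LL) (by positivity)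
      refine ⟨n1, ?_⟩
      intro n hn hn1'
      have h3 := up n hn
      refine h3.trans ?_
      rw [hr, one_pow, mul_one]
      apply mul_le_mul_of_nonneg_left _ (by positivity)
      have hnone : (1:ℝ) ≤ n := by exact_mod_cast hn1'
      apply Real.rpow_le_rpow_of_exponent_le hnone
      have := min_le_left d 2
      linarith
  · -- exponentially larger
    set r := (ρ / LL) ^ 2 with hr
    have hr1 : 1 < r := by
      rw [hr]
      apply one_lt_pow₀ _ (by norm_num)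
      rw [one_lt_div hL]; exact hgt
    set k := ⌈|d|⌉₊ with hk
    have hlim := tendsto_pow_const_div_const_pow_of_one_lt k hr1
    obtain ⟨n2, hn2⟩ := eventually_atTop.1 (hlim.eventually (gt_mem_nhds one_pos))
    have hA0 : Tendsto AA atTop (nhds 0) := AA_hasSum.summable.tendsto_atTop_zero
    obtain ⟨n3, hn3⟩ := eventually_atTop.1 (hA0.eventually (gt_mem_nhds (by positivity : 0 < c / (2 * LL))))
    set n := max (max n1 n2) (max n3 1) with hn
    have g1 : n1 ≤ n := (le_max_left _ _).trans (le_max_left _ _)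
    have g2 : n2 ≤ n := (le_max_right _ _).trans (le_max_left _ _)
    have g3 : n3 ≤ n := (le_max_left _ _).trans (le_max_right _ _)
    have g4 : 1 ≤ n := (le_max_right _ _).trans (le_max_right _ _)
    have h3 := lo n g1
    have h4 := hn3 (2 * n) (by omega)
    have h5 := hn2 n g2
    have hnone : (1:ℝ) ≤ n := by exact_mod_cast g4
    have hnpos : (0:ℝ) < n := by linarith
    have h6 : (n : ℝ) ^ d ≤ (n : ℝ) ^ k := by
      rw [← Real.rpow_natCast]
      apply Real.rpow_le_rpow_of_exponent_le hnone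
      exact (le_abs_self _).trans (Nat.le_ceil _)
    have h7 : (n : ℝ) ^ k < r ^ n := by
      rwa [div_lt_one (by positivity)] at h5
    have h8 : 1 ≤ (n : ℝ) ^ (-d) * r ^ n := by
      rw [Real.rpow_neg hnpos.le, inv_mul_eq_div, one_le_div (by positivity)]
      exact h6.trans h7.le
    have h9 : c / (2 * LL) * 1 ≤ c / (2 * LL) * ((n : ℝ) ^ (-d) * r ^ n) :=
      mul_le_mul_of_nonneg_left h8 (by positivity)
    linarith

end X141.RD
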